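import Mathlib

/-!
# Polynomial inequalities on boxes

Each polynomial is written with nonnegative coefficients in the Bernstein basis of the box.
-/

set_option autoImplicit false

namespace Pool.Agent.H39.Brouwer

/-- Positivity on a box. -/
lemma bM1a {a c : ℝ} (h1 : 0 ≤ a - 1 / 4) (h2 : 0 ≤ 5 / 8 - a) (h3 : 0 ≤ c - 1 / 4) (h4 : 0 ≤ 1 - c) :
    0 ≤ c * (c + (1 - 2 * c) * (a + (1 / 4) - a * (1 / 4) * c)) + (1 - a * c) * (1 - (1 / 4) * c) * (1 - 5 / 2 * (a + (1 / 4)) + 2 * (a ^ 2 + a * (1 / 4) + (1 / 4) ^ 2) - 1 / 2 * (a ^ 3 + a ^ 2 * (1 / 4) + a * (1 / 4) ^ 2 + (1 / 4) ^ 3)) := by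
  have key : c * (c + (1 - 2 * c) * (a + (1 / 4) - a * (1 / 4) * c)) + (1 - a * c) * (1 - (1 / 4) * c) * (1 - 5 / 2 * (a + (1 / 4)) + 2 * (a ^ 2 + a * (1 / 4) + (1 / 4) ^ 2) - 1 / 2 * (a ^ 3 + a ^ 2 * (1 / 4) + a * (1 / 4) ^ 2 + (1 / 4) ^ 3)) =
      ((5 / 8 - a) ^ 4) * ((5984 / 243) * ((1 - c) ^ 3) +
        (9248 / 81) * ((c - 1 / 4) * (1 - c) ^ 2) +
        (38144 / 243) * ((c - 1 / 4) ^ 2 * (1 - c)) +
        (17920 / 243) * ((c - 1 / 4) ^ 3)) +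
      ((a - 1 / 4) * (5 / 8 - a) ^ 3) * ((13576 / 243) * ((1 - c) ^ 3) +
        (83528 / 243) * ((c - 1 / 4) * (1 - c) ^ 2) +
        (12992 / 27) * ((c - 1 / 4) ^ 2 * (1 - c)) +
        (55424 / 243) * ((c - 1 / 4) ^ 3)) +
      ((a - 1 / 4) ^ 2 * (5 / 8 - a) ^ 2) * ((3788 / 81) * ((1 - c) ^ 3) +
        (34924 / 81) * ((c - 1 / 4) * (1 - c) ^ 2) +
        (15904 / 27) * ((c - 1 / 4) ^ 2 * (1 - c)) +
        (21952 / 81) * ((c - 1 / 4) ^ 3)) +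
      ((a - 1 / 4) ^ 3 * (5 / 8 - a)) * ((4721 / 243) * ((1 - c) ^ 3) +
        (21683 / 81) * ((c - 1 / 4) * (1 - c) ^ 2) +
        (82232 / 243) * ((c - 1 / 4) ^ 2 * (1 - c)) +
        (34960 / 243) * ((c - 1 / 4) ^ 3)) +
      ((a - 1 / 4) ^ 4) * ((2033 / 486) * ((1 - c) ^ 3) +
        (32905 / 486) * ((c - 1 / 4) * (1 - c) ^ 2) +
        (6140 / 81) * ((c - 1 / 4) ^ 2 * (1 - c)) +
        (6824 / 243) * ((c - 1 / 4) ^ 3)) := by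
    ring
  rw [key]
  positivity

/-- Positivity on a box. -/
lemma bM1b {a c : ℝ} (h1 : 0 ≤ a - 5 / 8) (h2 : 0 ≤ 1 - a) (h3 : 0 ≤ c - 1 / 4) (h4 : 0 ≤ 1 - c) :
    0 ≤ c * (c + (1 - 2 * c) * (a + (1 / 4) - a * (1 / 4) * c)) + (1 - a * c) * (1 - (1 / 4) * c) * (1 - 5 / 2 * (a + (1 / 4)) + 2 * (a ^ 2 + a * (1 / 4) + (1 / 4) ^ 2) - 1 / 2 * (a ^ 3 + a ^ 2 * (1 / 4) + a * (1 / 4) ^ 2 + (1 / 4) ^ 3)) := by
  have key : c * (c + (1 - 2 * c) * (a + (1 / 4) - a * (1 / 4) * c)) + (1 - a * c) * (1 - (1 / 4) * c) * (1 - 5 / 2 * (a + (1 / 4)) + 2 * (a ^ 2 + a * (1 / 4) + (1 / 4) ^ 2) - 1 / 2 * (a ^ 3 + a ^ 2 * (1 / 4) + a * (1 / 4) ^ 2 + (1 / 4) ^ 3)) =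
      ((1 - a) ^ 4) * ((2033 / 486) * ((1 - c) ^ 3) +
        (32905 / 486) * ((c - 1 / 4) * (1 - c) ^ 2) +
        (6140 / 81) * ((c - 1 / 4) ^ 2 * (1 - c)) +
        (6824 / 243) * ((c - 1 / 4) ^ 3)) +
      ((a - 5 / 8) * (1 - a) ^ 3) * ((379 / 27) * ((1 - c) ^ 3) +
        (66571 / 243) * ((c - 1 / 4) * (1 - c) ^ 2) +
        (65128 / 243) * ((c - 1 / 4) ^ 2 * (1 - c)) +
        (6544 / 81) * ((c - 1 / 4) ^ 3)) +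
      ((a - 5 / 8) ^ 2 * (1 - a) ^ 2) * ((826 / 27) * ((1 - c) ^ 3) +
        (36446 / 81) * ((c - 1 / 4) * (1 - c) ^ 2) +
        (30608 / 81) * ((c - 1 / 4) ^ 2 * (1 - c)) +
        (736 / 9) * ((c - 1 / 4) ^ 3)) +
      ((a - 5 / 8) ^ 3 * (1 - a)) * ((7756 / 243) * ((1 - c) ^ 3) +
        (81452 / 243) * ((c - 1 / 4) * (1 - c) ^ 2) +
        (19424 / 81) * ((c - 1 / 4) ^ 2 * (1 - c)) +
        (6848 / 243) * ((c - 1 / 4) ^ 3)) +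
      ((a - 5 / 8) ^ 4) * ((928 / 81) * ((1 - c) ^ 3) +
        (22624 / 243) * ((c - 1 / 4) * (1 - c) ^ 2) +
        (13696 / 243) * ((c - 1 / 4) ^ 2 * (1 - c))) := by
    ring
  rw [key]
  positivity

/-- Positivity on a box. -/
lemma bMa {s c : ℝ} (h1 : 0 ≤ s) (h2 : 0 ≤ 1 / 2 - s) (h3 : 0 ≤ c - 1 / 4) (h4 : 0 ≤ 1 - c) :
    0 ≤ c * (c + (1 - 2 * c) * ((c + s * (1 - c)) + c - (c + s * (1 - c)) * c * c)) + (1 - (c + s * (1 - c)) * c) * (1 - c * c) * (1 - 5 / 2 * ((c + s * (1 - c)) + c) + 2 * ((c + s * (1 - c)) ^ 2 + (c + s * (1 - c)) * c + c ^ 2) - 1 / 2 * ((c + s * (1 - c)) ^ 3 + (c + s * (1 - c)) ^ 2 * c + (c + s * (1 - c)) * c ^ 2 + c ^ 3)) := by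
  have key : c * (c + (1 - 2 * c) * ((c + s * (1 - c)) + c - (c + s * (1 - c)) * c * c)) + (1 - (c + s * (1 - c)) * c) * (1 - c * c) * (1 - 5 / 2 * ((c + s * (1 - c)) + c) + 2 * ((c + s * (1 - c)) ^ 2 + (c + s * (1 - c)) * c + c ^ 2) - 1 / 2 * ((c + s * (1 - c)) ^ 3 + (c + s * (1 - c)) ^ 2 * c + (c + s * (1 - c)) * c ^ 2 + c ^ 3)) =
      ((1 / 2 - s) ^ 4) * ((5984 / 243) * ((1 - c) ^ 7) +
        (10240 / 243) * ((c - 1 / 4) * (1 - c) ^ 6) +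
        (33536 / 243) * ((c - 1 / 4) ^ 2 * (1 - c) ^ 5) +
        (152576 / 243) * ((c - 1 / 4) ^ 3 * (1 - c) ^ 4) +
        (212992 / 243) * ((c - 1 / 4) ^ 4 * (1 - c) ^ 3) +
        (81920 / 243) * ((c - 1 / 4) ^ 5 * (1 - c) ^ 2)) +
      (s * (1 / 2 - s) ^ 3) * ((13576 / 243) * ((1 - c) ^ 7) +
        (23744 / 243) * ((c - 1 / 4) * (1 - c) ^ 6) +
        (166720 / 243) * ((c - 1 / 4) ^ 2 * (1 - c) ^ 5) +
        (661504 / 243) * ((c - 1 / 4) ^ 3 * (1 - c) ^ 4) +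
        (837632 / 243) * ((c - 1 / 4) ^ 4 * (1 - c) ^ 3) +
        (311296 / 243) * ((c - 1 / 4) ^ 5 * (1 - c) ^ 2)) +
      (s ^ 2 * (1 / 2 - s) ^ 2) * ((3788 / 81) * ((1 - c) ^ 7) +
        (10832 / 81) * ((c - 1 / 4) * (1 - c) ^ 6) +
        (34912 / 27) * ((c - 1 / 4) ^ 2 * (1 - c) ^ 5) +
        (353408 / 81) * ((c - 1 / 4) ^ 3 * (1 - c) ^ 4) +
        (410624 / 81) * ((c - 1 / 4) ^ 4 * (1 - c) ^ 3) +
        (16384 / 9) * ((c - 1 / 4) ^ 5 * (1 - c) ^ 2)) +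
      (s ^ 3 * (1 / 2 - s)) * ((4721 / 243) * ((1 - c) ^ 7) +
        (29536 / 243) * ((c - 1 / 4) * (1 - c) ^ 6) +
        (257216 / 243) * ((c - 1 / 4) ^ 2 * (1 - c) ^ 5) +
        (746240 / 243) * ((c - 1 / 4) ^ 3 * (1 - c) ^ 4) +
        (802816 / 243) * ((c - 1 / 4) ^ 4 * (1 - c) ^ 3) +
        (278528 / 243) * ((c - 1 / 4) ^ 5 * (1 - c) ^ 2)) +
      (s ^ 4) * ((2033 / 486) * ((1 - c) ^ 7) +
        (10922 / 243) * ((c - 1 / 4) * (1 - c) ^ 6) +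
        (76624 / 243) * ((c - 1 / 4) ^ 2 * (1 - c) ^ 5) +
        (194944 / 243) * ((c - 1 / 4) ^ 3 * (1 - c) ^ 4) +
        (195584 / 243) * ((c - 1 / 4) ^ 4 * (1 - c) ^ 3) +
        (65536 / 243) * ((c - 1 / 4) ^ 5 * (1 - c) ^ 2)) := by
    ring
  rw [key]
  positivity

/-- Positivity on a box. -/
lemma bMb {s c : ℝ} (h1 : 0 ≤ s - 1 / 2) (h2 : 0 ≤ 1 - s) (h3 : 0 ≤ c - 1 / 4) (h4 : 0 ≤ 1 - c) :
    0 ≤ c * (c + (1 - 2 * c) * ((c + s * (1 - c)) + c - (c + s * (1 - c)) * c * c)) + (1 - (c + s * (1 - c)) * c) * (1 - c * c) * (1 - 5 / 2 * ((c + s * (1 - c)) + c) + 2 * ((c + s * (1 - c)) ^ 2 + (c + s * (1 - c)) * c + c ^ 2) - 1 / 2 * ((c + s * (1 - c)) ^ 3 + (c + s * (1 - c)) ^ 2 * c + (c + s * (1 - c)) * c ^ 2 + c ^ 3)) := by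
  have key : c * (c + (1 - 2 * c) * ((c + s * (1 - c)) + c - (c + s * (1 - c)) * c * c)) + (1 - (c + s * (1 - c)) * c) * (1 - c * c) * (1 - 5 / 2 * ((c + s * (1 - c)) + c) + 2 * ((c + s * (1 - c)) ^ 2 + (c + s * (1 - c)) * c + c ^ 2) - 1 / 2 * ((c + s * (1 - c)) ^ 3 + (c + s * (1 - c)) ^ 2 * c + (c + s * (1 - c)) * c ^ 2 + c ^ 3)) =
      ((1 - s) ^ 4) * ((2033 / 486) * ((1 - c) ^ 7) +
        (10922 / 243) * ((c - 1 / 4) * (1 - c) ^ 6) +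
        (76624 / 243) * ((c - 1 / 4) ^ 2 * (1 - c) ^ 5) +
        (194944 / 243) * ((c - 1 / 4) ^ 3 * (1 - c) ^ 4) +
        (195584 / 243) * ((c - 1 / 4) ^ 4 * (1 - c) ^ 3) +
        (65536 / 243) * ((c - 1 / 4) ^ 5 * (1 - c) ^ 2)) +
      ((s - 1 / 2) * (1 - s) ^ 3) * ((379 / 27) * ((1 - c) ^ 7) +
        (19280 / 81) * ((c - 1 / 4) * (1 - c) ^ 6) +
        (118592 / 81) * ((c - 1 / 4) ^ 2 * (1 - c) ^ 5) +
        (90368 / 27) * ((c - 1 / 4) ^ 3 * (1 - c) ^ 4) +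
        (253952 / 81) * ((c - 1 / 4) ^ 4 * (1 - c) ^ 3) +
        (81920 / 81) * ((c - 1 / 4) ^ 5 * (1 - c) ^ 2)) +
      ((s - 1 / 2) ^ 2 * (1 - s) ^ 2) * ((826 / 27) * ((1 - c) ^ 7) +
        (39136 / 81) * ((c - 1 / 4) * (1 - c) ^ 6) +
        (203296 / 81) * ((c - 1 / 4) ^ 2 * (1 - c) ^ 5) +
        (46720 / 9) * ((c - 1 / 4) ^ 3 * (1 - c) ^ 4) +
        (369664 / 81) * ((c - 1 / 4) ^ 4 * (1 - c) ^ 3) +
        (114688 / 81) * ((c - 1 / 4) ^ 5 * (1 - c) ^ 2)) +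
      ((s - 1 / 2) ^ 3 * (1 - s)) * ((7756 / 243) * ((1 - c) ^ 7) +
        (101312 / 243) * ((c - 1 / 4) * (1 - c) ^ 6) +
        (455488 / 243) * ((c - 1 / 4) ^ 2 * (1 - c) ^ 5) +
        (862720 / 243) * ((c - 1 / 4) ^ 3 * (1 - c) ^ 4) +
        (714752 / 243) * ((c - 1 / 4) ^ 4 * (1 - c) ^ 3) +
        (212992 / 243) * ((c - 1 / 4) ^ 5 * (1 - c) ^ 2)) +
      ((s - 1 / 2) ^ 4) * ((928 / 81) * ((1 - c) ^ 7) +
        (10400 / 81) * ((c - 1 / 4) * (1 - c) ^ 6) +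
        (41728 / 81) * ((c - 1 / 4) ^ 2 * (1 - c) ^ 5) +
        (73216 / 81) * ((c - 1 / 4) ^ 3 * (1 - c) ^ 4) +
        (57344 / 81) * ((c - 1 / 4) ^ 4 * (1 - c) ^ 3) +
        (16384 / 81) * ((c - 1 / 4) ^ 5 * (1 - c) ^ 2)) := by
    ring
  rw [key]
  positivity

/-- Positivity on a box. -/
lemma bM0 {s b : ℝ} (h1 : 0 ≤ s) (h2 : 0 ≤ 1 - s) (h3 : 0 ≤ b) (h4 : 0 ≤ 1 / 4 - b) :
    0 ≤ ((b + s * (1 - b)) * (1 - (b + s * (1 - b))) ^ 2 * (1 - (b + s * (1 - b)) / 2) - b / 2) * (1 - (b + s * (1 - b)) * b) + (b + s * (1 - b)) * b * ((b + s * (1 - b)) + b - 2 * ((b + s * (1 - b)) * b)) := by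
  have key : ((b + s * (1 - b)) * (1 - (b + s * (1 - b))) ^ 2 * (1 - (b + s * (1 - b)) / 2) - b / 2) * (1 - (b + s * (1 - b)) * b) + (b + s * (1 - b)) * b * ((b + s * (1 - b)) + b - 2 * ((b + s * (1 - b)) * b)) =
      ((1 - s) ^ 5) * (512 * (b * (1 / 4 - b) ^ 5) +
        1920 * (b ^ 2 * (1 / 4 - b) ^ 4) +
        2784 * (b ^ 3 * (1 / 4 - b) ^ 3) +
        1952 * (b ^ 4 * (1 / 4 - b) ^ 2) +
        664 * (b ^ 5 * (1 / 4 - b)) +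
        (177 / 2) * (b ^ 6)) +
      (s * (1 - s) ^ 4) * (4096 * ((1 / 4 - b) ^ 6) +
        20992 * (b * (1 / 4 - b) ^ 5) +
        43520 * (b ^ 2 * (1 / 4 - b) ^ 4) +
        46816 * (b ^ 3 * (1 / 4 - b) ^ 3) +
        27656 * (b ^ 4 * (1 / 4 - b) ^ 2) +
        8562 * (b ^ 5 * (1 / 4 - b)) +
        1098 * (b ^ 6)) +
      (s ^ 2 * (1 - s) ^ 3) * (6144 * ((1 / 4 - b) ^ 6) +
        28672 * (b * (1 / 4 - b) ^ 5) +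
        54528 * (b ^ 2 * (1 / 4 - b) ^ 4) +
        54272 * (b ^ 3 * (1 / 4 - b) ^ 3) +
        30104 * (b ^ 4 * (1 / 4 - b) ^ 2) +
        9008 * (b ^ 5 * (1 / 4 - b)) +
        1176 * (b ^ 6)) +
      (s ^ 3 * (1 - s) ^ 2) * (2048 * ((1 / 4 - b) ^ 6) +
        8704 * (b * (1 / 4 - b) ^ 5) +
        15488 * (b ^ 2 * (1 / 4 - b) ^ 4) +
        15520 * (b ^ 3 * (1 / 4 - b) ^ 3) +
        9920 * (b ^ 4 * (1 / 4 - b) ^ 2) +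
        4000 * (b ^ 5 * (1 / 4 - b)) +
        768 * (b ^ 6)) +
      (s ^ 4 * (1 - s)) * (512 * (b * (1 / 4 - b) ^ 5) +
        3072 * (b ^ 2 * (1 / 4 - b) ^ 4) +
        7008 * (b ^ 3 * (1 / 4 - b) ^ 3) +
        7712 * (b ^ 4 * (1 / 4 - b) ^ 2) +
        4128 * (b ^ 5 * (1 / 4 - b)) +
        864 * (b ^ 6)) +
      (s ^ 5) * (512 * (b * (1 / 4 - b) ^ 5) +
        2432 * (b ^ 2 * (1 / 4 - b) ^ 4) +
        4608 * (b ^ 3 * (1 / 4 - b) ^ 3) +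
        4352 * (b ^ 4 * (1 / 4 - b) ^ 2) +
        2048 * (b ^ 5 * (1 / 4 - b)) +
        384 * (b ^ 6)) := by
    ring
  rw [key]
  positivity

/-- Positivity on a box. -/
lemma bB1 {t u : ℝ} (h1 : 0 ≤ t) (h2 : 0 ≤ 1 / 4 - t) (h3 : 0 ≤ u) (h4 : 0 ≤ 1 / 4 - u) :
    0 ≤ ((1 - 4 * t + 2 * t ^ 2) * ((1 - 2 * u) - 2 * (1 - 2 * t) * u ^ 2 + t ^ 2 * u ^ 2 * (1 - 2 * u)) - (1 - 6 * t + 5 * t ^ 2 - 2 * t ^ 3) * ((1 - 2 * u) ^ 2 - 2 * u ^ 2 - (1 - 2 * t) * u ^ 2 * (1 - 2 * u) + 2 * t ^ 2 * u ^ 4) - (4 * t ^ 3) * ((1 - 2 * u) ^ 3 - 3 * u ^ 2 * (1 - 2 * u) - (1 - 2 * t) * u ^ 2 * ((1 - 2 * u) ^ 2 - 2 * u ^ 2) + t ^ 2 * u ^ 4 * (1 - 2 * u))) + (3 * t ^ 2 + 4 * t ^ 3 - t ^ 4 + (3 * u ^ 2 + 4 * u ^ 3 - u ^ 4) - 1 / 2) * (1 - (1 - 2 * t) * (1 - 2 * u) + t ^ 2 * ((1 - 2 * u) ^ 2 - 2 * u ^ 2) + (1 - 2 * t) ^ 2 * u ^ 2 - (1 - 2 * t) * t ^ 2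 * u ^ 2 * (1 - 2 * u) + t ^ 4 * u ^ 4) := by
  have key : ((1 - 4 * t + 2 * t ^ 2) * ((1 - 2 * u) - 2 * (1 - 2 * t) * u ^ 2 + t ^ 2 * u ^ 2 * (1 - 2 * u)) - (1 - 6 * t + 5 * t ^ 2 - 2 * t ^ 3) * ((1 - 2 * u) ^ 2 - 2 * u ^ 2 - (1 - 2 * t) * u ^ 2 * (1 - 2 * u) + 2 * t ^ 2 * u ^ 4) - (4 * t ^ 3) * ((1 - 2 * u) ^ 3 - 3 * u ^ 2 * (1 - 2 * u) - (1 - 2 * t) * u ^ 2 * ((1 - 2 * u) ^ 2 - 2 * u ^ 2) + t ^ 2 * u ^ 4 * (1 - 2 * u))) + (3 * t ^ 2 + 4 * t ^ 3 - t ^ 4 + (3 * u ^ 2 + 4 * u ^ 3 - u ^ 4) - 1 / 2) * (1 - (1 - 2 * t) * (1 - 2 * u) + t ^ 2 * ((1 - 2 * u) ^ 2 - 2 * u ^ 2) + (1 - 2 * t) ^ 2 * u ^ 2 - (1 - 2 * t) * t ^ 2 * u ^ 2 * (1 - 2 * u) + t ^ 4 * u ^ 4) =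
      ((1 / 4 - t) ^ 8) * (1073741824 * (u * (1 / 4 - u) ^ 7) +
        6576668672 * (u ^ 2 * (1 / 4 - u) ^ 6) +
        17179869184 * (u ^ 3 * (1 / 4 - u) ^ 5) +
        25014829056 * (u ^ 4 * (1 / 4 - u) ^ 4) +
        22221422592 * (u ^ 5 * (1 / 4 - u) ^ 3) +
        12271484928 * (u ^ 6 * (1 / 4 - u) ^ 2) +
        3982491648 * (u ^ 7 * (1 / 4 - u)) +
        594542592 * (u ^ 8)) +
      (t * (1 / 4 - t) ^ 7) * (1073741824 * ((1 / 4 - u) ^ 8) +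
        13421772800 * (u * (1 / 4 - u) ^ 7) +
        57982058496 * (u ^ 2 * (1 / 4 - u) ^ 6) +
        128513474560 * (u ^ 3 * (1 / 4 - u) ^ 5) +
        168787181568 * (u ^ 4 * (1 / 4 - u) ^ 4) +
        140077170688 * (u ^ 5 * (1 / 4 - u) ^ 3) +
        74697408512 * (u ^ 6 * (1 / 4 - u) ^ 2) +
        24274534400 * (u ^ 7 * (1 / 4 - u)) +
        3746562048 * (u ^ 8)) +
      (t ^ 2 * (1 / 4 - t) ^ 6) * (6576668672 * ((1 / 4 - u) ^ 8) +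
        57982058496 * (u * (1 / 4 - u) ^ 7) +
        206552694784 * (u ^ 2 * (1 / 4 - u) ^ 6) +
        398723121152 * (u ^ 3 * (1 / 4 - u) ^ 5) +
        468612808704 * (u ^ 4 * (1 / 4 - u) ^ 4) +
        357349982208 * (u ^ 5 * (1 / 4 - u) ^ 3) +
        182768566272 * (u ^ 6 * (1 / 4 - u) ^ 2) +
        60377890816 * (u ^ 7 * (1 / 4 - u)) +
        9922314240 * (u ^ 8)) +
      (t ^ 3 * (1 / 4 - t) ^ 5) * (17179869184 * ((1 / 4 - u) ^ 8) +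
        128513474560 * (u * (1 / 4 - u) ^ 7) +
        398723121152 * (u ^ 2 * (1 / 4 - u) ^ 6) +
        673783480320 * (u ^ 3 * (1 / 4 - u) ^ 5) +
        691125354496 * (u ^ 4 * (1 / 4 - u) ^ 4) +
        465482547200 * (u ^ 5 * (1 / 4 - u) ^ 3) +
        224394313728 * (u ^ 6 * (1 / 4 - u) ^ 2) +
        78108180480 * (u ^ 7 * (1 / 4 - u)) +
        14465024000 * (u ^ 8)) +
      (t ^ 4 * (1 / 4 - t) ^ 4) * (25014829056 * ((1 / 4 - u) ^ 8) +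
        168787181568 * (u * (1 / 4 - u) ^ 7) +
        468612808704 * (u ^ 2 * (1 / 4 - u) ^ 6) +
        691125354496 * (u ^ 3 * (1 / 4 - u) ^ 5) +
        591431827456 * (u ^ 4 * (1 / 4 - u) ^ 4) +
        320272465920 * (u ^ 5 * (1 / 4 - u) ^ 3) +
        138368233472 * (u ^ 6 * (1 / 4 - u) ^ 2) +
        56304414720 * (u ^ 7 * (1 / 4 - u)) +
        13061717760 * (u ^ 8)) +
      (t ^ 5 * (1 / 4 - t) ^ 3) * (22221422592 * ((1 / 4 - u) ^ 8) +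
        140077170688 * (u * (1 / 4 - u) ^ 7) +
        357349982208 * (u ^ 2 * (1 / 4 - u) ^ 6) +
        465482547200 * (u ^ 3 * (1 / 4 - u) ^ 5) +
        320272465920 * (u ^ 4 * (1 / 4 - u) ^ 4) +
        115146784768 * (u ^ 5 * (1 / 4 - u) ^ 3) +
        37781061632 * (u ^ 6 * (1 / 4 - u) ^ 2) +
        25129500672 * (u ^ 7 * (1 / 4 - u)) +
        8211069952 * (u ^ 8)) +
      (t ^ 6 * (1 / 4 - t) ^ 2) * (12271484928 * ((1 / 4 - u) ^ 8) +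
        74697408512 * (u * (1 / 4 - u) ^ 7) +
        182768566272 * (u ^ 2 * (1 / 4 - u) ^ 6) +
        224394313728 * (u ^ 3 * (1 / 4 - u) ^ 5) +
        138368233472 * (u ^ 4 * (1 / 4 - u) ^ 4) +
        37781061632 * (u ^ 5 * (1 / 4 - u) ^ 3) +
        10585161728 * (u ^ 6 * (1 / 4 - u) ^ 2) +
        11229618176 * (u ^ 7 * (1 / 4 - u)) +
        4108954112 * (u ^ 8)) +
      (t ^ 7 * (1 / 4 - t)) * (3982491648 * ((1 / 4 - u) ^ 8) +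
        24274534400 * (u * (1 / 4 - u) ^ 7) +
        60377890816 * (u ^ 2 * (1 / 4 - u) ^ 6) +
        78108180480 * (u ^ 3 * (1 / 4 - u) ^ 5) +
        56304414720 * (u ^ 4 * (1 / 4 - u) ^ 4) +
        25129500672 * (u ^ 5 * (1 / 4 - u) ^ 3) +
        11229618176 * (u ^ 6 * (1 / 4 - u) ^ 2) +
        5952929792 * (u ^ 7 * (1 / 4 - u)) +
        1570728960 * (u ^ 8)) +
      (t ^ 8) * (594542592 * ((1 / 4 - u) ^ 8) +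
        3746562048 * (u * (1 / 4 - u) ^ 7) +
        9922314240 * (u ^ 2 * (1 / 4 - u) ^ 6) +
        14465024000 * (u ^ 3 * (1 / 4 - u) ^ 5) +
        13061717760 * (u ^ 4 * (1 / 4 - u) ^ 4) +
        8211069952 * (u ^ 5 * (1 / 4 - u) ^ 3) +
        4108954112 * (u ^ 6 * (1 / 4 - u) ^ 2) +
        1570728960 * (u ^ 7 * (1 / 4 - u)) +
        305856000 * (u ^ 8)) := by
    ring
  rw [key]
  positivity

/-- Positivity on a box. -/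
lemma bB2a {s x : ℝ} (h1 : 0 ≤ s) (h2 : 0 ≤ 1 / 2 - s) (h3 : 0 ≤ x - 1 / 2) (h4 : 0 ≤ 3 / 4 - x) :
    0 ≤ ((1 - x + s * (x - 1 / 2)) ^ 2 * (1 - (1 - x + s * (x - 1 / 2)) ^ 2) ^ 2 * (1 - (1 - x + s * (x - 1 / 2)) ^ 2 / 2) + (1 - x + s * (x - 1 / 2)) ^ 2 / 2 + 2 / 5 * ((1 - (1 - x + s * (x - 1 / 2)) ^ 2) * (1 - x ^ 2) - (1 - x + s * (x - 1 / 2)) * x) - 3 / 100 + 2 * (x ^ 2 * (1 - x ^ 2) ^ 2 * (1 - x ^ 2 / 2)) - 1 / 2) * (1 + x ^ 2) + 2 * (x ^ 2) ^ 3 := by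
  have key : ((1 - x + s * (x - 1 / 2)) ^ 2 * (1 - (1 - x + s * (x - 1 / 2)) ^ 2) ^ 2 * (1 - (1 - x + s * (x - 1 / 2)) ^ 2 / 2) + (1 - x + s * (x - 1 / 2)) ^ 2 / 2 + 2 / 5 * ((1 - (1 - x + s * (x - 1 / 2)) ^ 2) * (1 - x ^ 2) - (1 - x + s * (x - 1 / 2)) * x) - 3 / 100 + 2 * (x ^ 2 * (1 - x ^ 2) ^ 2 * (1 - x ^ 2 / 2)) - 1 / 2) * (1 + x ^ 2) + 2 * (x ^ 2) ^ 3 =
      ((1 / 2 - s) ^ 8) * ((191496192 / 5) * ((3 / 4 - x) ^ 10) +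
        (9501540352 / 25) * ((x - 1 / 2) * (3 / 4 - x) ^ 9) +
        (41307897856 / 25) * ((x - 1 / 2) ^ 2 * (3 / 4 - x) ^ 8) +
        (103317897216 / 25) * ((x - 1 / 2) ^ 3 * (3 / 4 - x) ^ 7) +
        (164037148672 / 25) * ((x - 1 / 2) ^ 4 * (3 / 4 - x) ^ 6) +
        (34398486528 / 5) * ((x - 1 / 2) ^ 5 * (3 / 4 - x) ^ 5) +
        (120114204672 / 25) * ((x - 1 / 2) ^ 6 * (3 / 4 - x) ^ 4) +
        (55157825536 / 25) * ((x - 1 / 2) ^ 7 * (3 / 4 - x) ^ 3) +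
        (16177998336 / 25) * ((x - 1 / 2) ^ 8 * (3 / 4 - x) ^ 2) +
        (2898826752 / 25) * ((x - 1 / 2) ^ 9 * (3 / 4 - x)) +
        10951296 * ((x - 1 / 2) ^ 10)) +
      (s * (1 / 2 - s) ^ 7) * ((1531969536 / 5) * ((3 / 4 - x) ^ 10) +
        (76110626816 / 25) * ((x - 1 / 2) * (3 / 4 - x) ^ 9) +
        (331836162048 / 25) * ((x - 1 / 2) ^ 2 * (3 / 4 - x) ^ 8) +
        (833888452608 / 25) * ((x - 1 / 2) ^ 3 * (3 / 4 - x) ^ 7) +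
        (1333314584576 / 25) * ((x - 1 / 2) ^ 4 * (3 / 4 - x) ^ 6) +
        (282459078656 / 5) * ((x - 1 / 2) ^ 5 * (3 / 4 - x) ^ 5) +
        (1000804335616 / 25) * ((x - 1 / 2) ^ 6 * (3 / 4 - x) ^ 4) +
        (469159477248 / 25) * ((x - 1 / 2) ^ 7 * (3 / 4 - x) ^ 3) +
        (141415108608 / 25) * ((x - 1 / 2) ^ 8 * (3 / 4 - x) ^ 2) +
        (26051787776 / 25) * ((x - 1 / 2) ^ 9 * (3 / 4 - x)) +
        99025408 * ((x - 1 / 2) ^ 10)) +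
      (s ^ 2 * (1 / 2 - s) ^ 6) * ((5361893376 / 5) * ((3 / 4 - x) ^ 10) +
        (266731257856 / 25) * ((x - 1 / 2) * (3 / 4 - x) ^ 9) +
        (1166114848768 / 25) * ((x - 1 / 2) ^ 2 * (3 / 4 - x) ^ 8) +
        (2943456575488 / 25) * ((x - 1 / 2) ^ 3 * (3 / 4 - x) ^ 7) +
        (4737567195136 / 25) * ((x - 1 / 2) ^ 4 * (3 / 4 - x) ^ 6) +
        202648961024 * ((x - 1 / 2) ^ 5 * (3 / 4 - x) ^ 5) +
        (3639109595136 / 25) * ((x - 1 / 2) ^ 6 * (3 / 4 - x) ^ 4) +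
        (1738658418688 / 25) * ((x - 1 / 2) ^ 7 * (3 / 4 - x) ^ 3) +
        (537297645568 / 25) * ((x - 1 / 2) ^ 8 * (3 / 4 - x) ^ 2) +
        (101574342656 / 25) * ((x - 1 / 2) ^ 9 * (3 / 4 - x)) +
        389826688 * ((x - 1 / 2) ^ 10)) +
      (s ^ 3 * (1 / 2 - s) ^ 5) * ((10723786752 / 5) * ((3 / 4 - x) ^ 10) +
        (534150643712 / 25) * ((x - 1 / 2) * (3 / 4 - x) ^ 9) +
        (2341371969536 / 25) * ((x - 1 / 2) ^ 2 * (3 / 4 - x) ^ 8) +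
        (5934869856256 / 25) * ((x - 1 / 2) ^ 3 * (3 / 4 - x) ^ 7) +
        (9611727921152 / 25) * ((x - 1 / 2) ^ 4 * (3 / 4 - x) ^ 6) +
        (2074027610112 / 5) * ((x - 1 / 2) ^ 5 * (3 / 4 - x) ^ 5) +
        (7543014848512 / 25) * ((x - 1 / 2) ^ 6 * (3 / 4 - x) ^ 4) +
        (3667156007936 / 25) * ((x - 1 / 2) ^ 7 * (3 / 4 - x) ^ 3) +
        (1159215827456 / 25) * ((x - 1 / 2) ^ 8 * (3 / 4 - x) ^ 2) +
        (224413841152 / 25) * ((x - 1 / 2) ^ 9 * (3 / 4 - x)) +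
        871140736 * ((x - 1 / 2) ^ 10)) +
      (s ^ 4 * (1 / 2 - s) ^ 4) * (2680946688 * ((3 / 4 - x) ^ 10) +
        (133709692928 / 5) * ((x - 1 / 2) * (3 / 4 - x) ^ 9) +
        (587569987584 / 5) * ((x - 1 / 2) ^ 2 * (3 / 4 - x) ^ 8) +
        (1495268737024 / 5) * ((x - 1 / 2) ^ 3 * (3 / 4 - x) ^ 7) +
        (2435709498368 / 5) * ((x - 1 / 2) ^ 4 * (3 / 4 - x) ^ 6) +
        529929106432 * ((x - 1 / 2) ^ 5 * (3 / 4 - x) ^ 5) +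
        (1949728804608 / 5) * ((x - 1 / 2) ^ 6 * (3 / 4 - x) ^ 4) +
        (963097250304 / 5) * ((x - 1 / 2) ^ 7 * (3 / 4 - x) ^ 3) +
        (310739623104 / 5) * ((x - 1 / 2) ^ 8 * (3 / 4 - x) ^ 2) +
        (61469146688 / 5) * ((x - 1 / 2) ^ 9 * (3 / 4 - x)) +
        1207523920 * ((x - 1 / 2) ^ 10)) +
      (s ^ 5 * (1 / 2 - s) ^ 3) * ((10723786752 / 5) * ((3 / 4 - x) ^ 10) +
        (535526899712 / 25) * ((x - 1 / 2) * (3 / 4 - x) ^ 9) +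
        (2358953639936 / 25) * ((x - 1 / 2) ^ 2 * (3 / 4 - x) ^ 8) +
        (6025514090496 / 25) * ((x - 1 / 2) ^ 3 * (3 / 4 - x) ^ 7) +
        (9868324524032 / 25) * ((x - 1 / 2) ^ 4 * (3 / 4 - x) ^ 6) +
        (2163449750528 / 5) * ((x - 1 / 2) ^ 5 * (3 / 4 - x) ^ 5) +
        (8044867128832 / 25) * ((x - 1 / 2) ^ 6 * (3 / 4 - x) ^ 4) +
        (4031818518016 / 25) * ((x - 1 / 2) ^ 7 * (3 / 4 - x) ^ 3) +
        (1325035260416 / 25) * ((x - 1 / 2) ^ 8 * (3 / 4 - x) ^ 2) +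
        (267257544512 / 25) * ((x - 1 / 2) ^ 9 * (3 / 4 - x)) +
        1062638176 * ((x - 1 / 2) ^ 10)) +
      (s ^ 6 * (1 / 2 - s) ^ 2) * ((5361893376 / 5) * ((3 / 4 - x) ^ 10) +
        (268107513856 / 25) * ((x - 1 / 2) * (3 / 4 - x) ^ 9) +
        (1183696519168 / 25) * ((x - 1 / 2) ^ 2 * (3 / 4 - x) ^ 8) +
        (3034086473728 / 25) * ((x - 1 / 2) ^ 3 * (3 / 4 - x) ^ 7) +
        (4994026018816 / 25) * ((x - 1 / 2) ^ 4 * (3 / 4 - x) ^ 6) +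
        (1102563111936 / 5) * ((x - 1 / 2) ^ 5 * (3 / 4 - x) ^ 5) +
        (4139935075456 / 25) * ((x - 1 / 2) ^ 6 * (3 / 4 - x) ^ 4) +
        (2102151661568 / 25) * ((x - 1 / 2) ^ 7 * (3 / 4 - x) ^ 3) +
        (702344017728 / 25) * ((x - 1 / 2) ^ 8 * (3 / 4 - x) ^ 2) +
        (144141998016 / 25) * ((x - 1 / 2) ^ 9 * (3 / 4 - x)) +
        579677128 * ((x - 1 / 2) ^ 10)) +
      (s ^ 7 * (1 / 2 - s)) * ((1531969536 / 5) * ((3 / 4 - x) ^ 10) +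
        (76700450816 / 25) * ((x - 1 / 2) * (3 / 4 - x) ^ 9) +
        (339371163648 / 25) * ((x - 1 / 2) ^ 2 * (3 / 4 - x) ^ 8) +
        (872719597568 / 25) * ((x - 1 / 2) ^ 3 * (3 / 4 - x) ^ 7) +
        (1443127095296 / 25) * ((x - 1 / 2) ^ 4 * (3 / 4 - x) ^ 6) +
        64132844544 * ((x - 1 / 2) ^ 5 * (3 / 4 - x) ^ 5) +
        (1214711472896 / 25) * ((x - 1 / 2) ^ 6 * (3 / 4 - x) ^ 4) +
        (624109503168 / 25) * ((x - 1 / 2) ^ 7 * (3 / 4 - x) ^ 3) +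
        (211599657248 / 25) * ((x - 1 / 2) ^ 8 * (3 / 4 - x) ^ 2) +
        (44099227216 / 25) * ((x - 1 / 2) ^ 9 * (3 / 4 - x)) +
        179224168 * ((x - 1 / 2) ^ 10)) +
      (s ^ 8) * ((191496192 / 5) * ((3 / 4 - x) ^ 10) +
        (9599844352 / 25) * ((x - 1 / 2) * (3 / 4 - x) ^ 9) +
        (42563731456 / 25) * ((x - 1 / 2) ^ 2 * (3 / 4 - x) ^ 8) +
        (109787365376 / 25) * ((x - 1 / 2) ^ 3 * (3 / 4 - x) ^ 7) +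
        (182316270592 / 25) * ((x - 1 / 2) ^ 4 * (3 / 4 - x) ^ 6) +
        (40748726272 / 5) * ((x - 1 / 2) ^ 5 * (3 / 4 - x) ^ 5) +
        (155594887552 / 25) * ((x - 1 / 2) ^ 6 * (3 / 4 - x) ^ 4) +
        (80789349056 / 25) * ((x - 1 / 2) ^ 7 * (3 / 4 - x) ^ 3) +
        (27748076326 / 25) * ((x - 1 / 2) ^ 8 * (3 / 4 - x) ^ 2) +
        (5861499242 / 25) * ((x - 1 / 2) ^ 9 * (3 / 4 - x)) +
        (48098887 / 2) * ((x - 1 / 2) ^ 10)) := by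
    ring
  rw [key]
  positivity

/-- Positivity on a box. -/
lemma bB2b {s x : ℝ} (h1 : 0 ≤ s) (h2 : 0 ≤ 1 / 2 - s) (h3 : 0 ≤ x - 3 / 4) (h4 : 0 ≤ 1 - x) :
    0 ≤ ((1 - x + s * (x - 1 / 2)) ^ 2 * (1 - (1 - x + s * (x - 1 / 2)) ^ 2) ^ 2 * (1 - (1 - x + s * (x - 1 / 2)) ^ 2 / 2) + (1 - x + s * (x - 1 / 2)) ^ 2 / 2 + 2 / 5 * ((1 - (1 - x + s * (x - 1 / 2)) ^ 2) * (1 - x ^ 2) - (1 - x + s * (x - 1 / 2)) * x) - 3 / 100 + 2 * (x ^ 2 * (1 - x ^ 2) ^ 2 * (1 - x ^ 2 / 2)) - 1 / 2) * (1 + x ^ 2) + 2 * (x ^ 2) ^ 3 := by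
  have key : ((1 - x + s * (x - 1 / 2)) ^ 2 * (1 - (1 - x + s * (x - 1 / 2)) ^ 2) ^ 2 * (1 - (1 - x + s * (x - 1 / 2)) ^ 2 / 2) + (1 - x + s * (x - 1 / 2)) ^ 2 / 2 + 2 / 5 * ((1 - (1 - x + s * (x - 1 / 2)) ^ 2) * (1 - x ^ 2) - (1 - x + s * (x - 1 / 2)) * x) - 3 / 100 + 2 * (x ^ 2 * (1 - x ^ 2) ^ 2 * (1 - x ^ 2 / 2)) - 1 / 2) * (1 + x ^ 2) + 2 * (x ^ 2) ^ 3 =
      ((1 / 2 - s) ^ 8) * (10951296 * ((1 - x) ^ 10) +
        (2576821248 / 25) * ((x - 3 / 4) * (1 - x) ^ 9) +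
        531197952 * ((x - 3 / 4) ^ 2 * (1 - x) ^ 8) +
        (49090199552 / 25) * ((x - 3 / 4) ^ 3 * (1 - x) ^ 7) +
        (131737747456 / 25) * ((x - 3 / 4) ^ 4 * (1 - x) ^ 6) +
        (247610474496 / 25) * ((x - 3 / 4) ^ 5 * (1 - x) ^ 5) +
        (317698080768 / 25) * ((x - 3 / 4) ^ 6 * (1 - x) ^ 4) +
        (54270099456 / 5) * ((x - 3 / 4) ^ 7 * (1 - x) ^ 3) +
        (147400425472 / 25) * ((x - 3 / 4) ^ 8 * (1 - x) ^ 2) +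
        (46070235136 / 25) * ((x - 3 / 4) ^ 9 * (1 - x)) +
        (6308233216 / 25) * ((x - 3 / 4) ^ 10)) +
      (s * (1 / 2 - s) ^ 7) * (99025408 * ((1 - x) ^ 10) +
        (23460916224 / 25) * ((x - 3 / 4) * (1 - x) ^ 9) +
        (23619452928 / 5) * ((x - 3 / 4) ^ 2 * (1 - x) ^ 8) +
        (418634612736 / 25) * ((x - 3 / 4) ^ 3 * (1 - x) ^ 7) +
        (1082396704768 / 25) * ((x - 3 / 4) ^ 4 * (1 - x) ^ 6) +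
        (1985047298048 / 25) * ((x - 3 / 4) ^ 5 * (1 - x) ^ 5) +
        (2510617575424 / 25) * ((x - 3 / 4) ^ 6 * (1 - x) ^ 4) +
        (425483829248 / 5) * ((x - 3 / 4) ^ 7 * (1 - x) ^ 3) +
        (1150849908736 / 25) * ((x - 3 / 4) ^ 8 * (1 - x) ^ 2) +
        (358998867968 / 25) * ((x - 3 / 4) ^ 9 * (1 - x)) +
        (49123688448 / 25) * ((x - 3 / 4) ^ 10)) +
      (s ^ 2 * (1 / 2 - s) ^ 6) * (389826688 * ((1 - x) ^ 10) +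
        (93339001344 / 25) * ((x - 3 / 4) * (1 - x) ^ 9) +
        (92635914752 / 5) * ((x - 3 / 4) ^ 2 * (1 - x) ^ 8) +
        (1587239079936 / 25) * ((x - 3 / 4) ^ 3 * (1 - x) ^ 7) +
        (3962711564288 / 25) * ((x - 3 / 4) ^ 4 * (1 - x) ^ 6) +
        (7080314667008 / 25) * ((x - 3 / 4) ^ 5 * (1 - x) ^ 5) +
        (8804926029824 / 25) * ((x - 3 / 4) ^ 6 * (1 - x) ^ 4) +
        (1476820729856 / 5) * ((x - 3 / 4) ^ 7 * (1 - x) ^ 3) +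
        (3969807548416 / 25) * ((x - 3 / 4) ^ 8 * (1 - x) ^ 2) +
        (1233867767808 / 25) * ((x - 3 / 4) ^ 9 * (1 - x)) +
        (168493580288 / 25) * ((x - 3 / 4) ^ 10)) +
      (s ^ 3 * (1 / 2 - s) ^ 5) * (871140736 * ((1 - x) ^ 10) +
        (211156526848 / 25) * ((x - 3 / 4) * (1 - x) ^ 9) +
        (207979999744 / 5) * ((x - 3 / 4) ^ 2 * (1 - x) ^ 8) +
        (3472081769472 / 25) * ((x - 3 / 4) ^ 3 * (1 - x) ^ 7) +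
        (8404723982336 / 25) * ((x - 3 / 4) ^ 4 * (1 - x) ^ 6) +
        (14637294780416 / 25) * ((x - 3 / 4) ^ 5 * (1 - x) ^ 5) +
        (17875962626048 / 25) * ((x - 3 / 4) ^ 6 * (1 - x) ^ 4) +
        (2962487640064 / 5) * ((x - 3 / 4) ^ 7 * (1 - x) ^ 3) +
        (7901619945472 / 25) * ((x - 3 / 4) ^ 8 * (1 - x) ^ 2) +
        (2443639259136 / 25) * ((x - 3 / 4) ^ 9 * (1 - x)) +
        (332625084416 / 25) * ((x - 3 / 4) ^ 10)) +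
      (s ^ 4 * (1 / 2 - s) ^ 4) * (1207523920 * ((1 - x) ^ 10) +
        (59283245312 / 5) * ((x - 3 / 4) * (1 - x) ^ 9) +
        58213302144 * ((x - 3 / 4) ^ 2 * (1 - x) ^ 8) +
        (953294412288 / 5) * ((x - 3 / 4) ^ 3 * (1 - x) ^ 7) +
        (2248340369664 / 5) * ((x - 3 / 4) ^ 4 * (1 - x) ^ 6) +
        (3823846979584 / 5) * ((x - 3 / 4) ^ 5 * (1 - x) ^ 5) +
        (4586138222592 / 5) * ((x - 3 / 4) ^ 6 * (1 - x) ^ 4) +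
        750368718848 * ((x - 3 / 4) ^ 7 * (1 - x) ^ 3) +
        (1983858311168 / 5) * ((x - 3 / 4) ^ 8 * (1 - x) ^ 2) +
        (609841577984 / 5) * ((x - 3 / 4) ^ 9 * (1 - x)) +
        (82668683264 / 5) * ((x - 3 / 4) ^ 10)) +
      (s ^ 5 * (1 / 2 - s) ^ 3) * (1062638176 * ((1 - x) ^ 10) +
        (264061543488 / 25) * ((x - 3 / 4) * (1 - x) ^ 9) +
        51850850048 * ((x - 3 / 4) ^ 2 * (1 - x) ^ 8) +
        (4186975462912 / 25) * ((x - 3 / 4) ^ 3 * (1 - x) ^ 7) +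
        (9667893915136 / 25) * ((x - 3 / 4) ^ 4 * (1 - x) ^ 6) +
        (16100844491776 / 25) * ((x - 3 / 4) ^ 5 * (1 - x) ^ 5) +
        (18982179012608 / 25) * ((x - 3 / 4) ^ 6 * (1 - x) ^ 4) +
        (3066237894656 / 5) * ((x - 3 / 4) ^ 7 * (1 - x) ^ 3) +
        (8032040517632 / 25) * ((x - 3 / 4) ^ 8 * (1 - x) ^ 2) +
        (2452806434816 / 25) * ((x - 3 / 4) ^ 9 * (1 - x)) +
        (330926391296 / 25) * ((x - 3 / 4) ^ 10)) +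
      (s ^ 6 * (1 / 2 - s) ^ 2) * (579677128 * ((1 - x) ^ 10) +
        (145696565984 / 25) * ((x - 3 / 4) * (1 - x) ^ 9) +
        (143267025888 / 5) * ((x - 3 / 4) ^ 2 * (1 - x) ^ 8) +
        (2291155979776 / 25) * ((x - 3 / 4) ^ 3 * (1 - x) ^ 7) +
        (5201797884288 / 25) * ((x - 3 / 4) ^ 4 * (1 - x) ^ 6) +
        (8508426720768 / 25) * ((x - 3 / 4) ^ 5 * (1 - x) ^ 5) +
        (9875788573184 / 25) * ((x - 3 / 4) ^ 6 * (1 - x) ^ 4) +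
        (1575859294208 / 5) * ((x - 3 / 4) ^ 7 * (1 - x) ^ 3) +
        (4090224664576 / 25) * ((x - 3 / 4) ^ 8 * (1 - x) ^ 2) +
        (1240601919488 / 25) * ((x - 3 / 4) ^ 9 * (1 - x)) +
        (166539296768 / 25) * ((x - 3 / 4) ^ 10)) +
      (s ^ 7 * (1 / 2 - s)) * (179224168 * ((1 - x) ^ 10) +
        (45512856784 / 25) * ((x - 3 / 4) * (1 - x) ^ 9) +
        (44864464672 / 5) * ((x - 3 / 4) ^ 2 * (1 - x) ^ 8) +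
        (712576325696 / 25) * ((x - 3 / 4) ^ 3 * (1 - x) ^ 7) +
        (1596489463168 / 25) * ((x - 3 / 4) ^ 4 * (1 - x) ^ 6) +
        (2572214943488 / 25) * ((x - 3 / 4) ^ 5 * (1 - x) ^ 5) +
        (2944795876864 / 25) * ((x - 3 / 4) ^ 6 * (1 - x) ^ 4) +
        (464637459456 / 5) * ((x - 3 / 4) ^ 7 * (1 - x) ^ 3) +
        (1195489304576 / 25) * ((x - 3 / 4) ^ 8 * (1 - x) ^ 2) +
        (360195391488 / 25) * ((x - 3 / 4) ^ 9 * (1 - x)) +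
        (48109191168 / 25) * ((x - 3 / 4) ^ 10)) +
      (s ^ 8) * ((48098887 / 2) * ((1 - x) ^ 10) +
        (6163222508 / 25) * ((x - 3 / 4) * (1 - x) ^ 9) +
        (6092717144 / 5) * ((x - 3 / 4) ^ 2 * (1 - x) ^ 8) +
        (96310625312 / 25) * ((x - 3 / 4) ^ 3 * (1 - x) ^ 7) +
        (213554312656 / 25) * ((x - 3 / 4) ^ 4 * (1 - x) ^ 6) +
        (339813230336 / 25) * ((x - 3 / 4) ^ 5 * (1 - x) ^ 5) +
        (384449031808 / 25) * ((x - 3 / 4) ^ 6 * (1 - x) ^ 4) +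
        (60052647424 / 5) * ((x - 3 / 4) ^ 7 * (1 - x) ^ 3) +
        (153273968512 / 25) * ((x - 3 / 4) ^ 8 * (1 - x) ^ 2) +
        (45891552256 / 25) * ((x - 3 / 4) ^ 9 * (1 - x)) +
        (6099726336 / 25) * ((x - 3 / 4) ^ 10)) := by
    ring
  rw [key]
  positivity

/-- Positivity on a box. -/
lemma bB2c {s x : ℝ} (h1 : 0 ≤ s - 1 / 2) (h2 : 0 ≤ 1 - s) (h3 : 0 ≤ x - 1 / 2) (h4 : 0 ≤ 1 - x) :
    0 ≤ ((1 - x + s * (x - 1 / 2)) ^ 2 * (1 - (1 - x + s * (x - 1 / 2)) ^ 2) ^ 2 * (1 - (1 - x + s * (x - 1 / 2)) ^ 2 / 2) + (1 - x + s * (x - 1 / 2)) ^ 2 / 2 + 2 / 5 * ((1 - (1 - x + s * (x - 1 / 2)) ^ 2) * (1 - x ^ 2) - (1 - x + s * (x - 1 / 2)) * x) - 3 / 100 + 2 * (x ^ 2 * (1 - x ^ 2) ^ 2 * (1 - x ^ 2 / 2)) - 1 / 2) * (1 + x ^ 2) + 2 * (x ^ 2) ^ 3 := by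
  have key : ((1 - x + s * (x - 1 / 2)) ^ 2 * (1 - (1 - x + s * (x - 1 / 2)) ^ 2) ^ 2 * (1 - (1 - x + s * (x - 1 / 2)) ^ 2 / 2) + (1 - x + s * (x - 1 / 2)) ^ 2 / 2 + 2 / 5 * ((1 - (1 - x + s * (x - 1 / 2)) ^ 2) * (1 - x ^ 2) - (1 - x + s * (x - 1 / 2)) * x) - 3 / 100 + 2 * (x ^ 2 * (1 - x ^ 2) ^ 2 * (1 - x ^ 2 / 2)) - 1 / 2) * (1 + x ^ 2) + 2 * (x ^ 2) ^ 3 =
      ((1 - s) ^ 8) * ((187008 / 5) * ((1 - x) ^ 10) +
        (9399296 / 25) * ((x - 1 / 2) * (1 - x) ^ 9) +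
        (39594112 / 25) * ((x - 1 / 2) ^ 2 * (1 - x) ^ 8) +
        (18076288 / 5) * ((x - 1 / 2) ^ 3 * (1 - x) ^ 7) +
        (121487248 / 25) * ((x - 1 / 2) ^ 4 * (1 - x) ^ 6) +
        (102843104 / 25) * ((x - 1 / 2) ^ 5 * (1 - x) ^ 5) +
        (72548296 / 25) * ((x - 1 / 2) ^ 6 * (1 - x) ^ 4) +
        (67933112 / 25) * ((x - 1 / 2) ^ 7 * (1 - x) ^ 3) +
        (24037351 / 10) * ((x - 1 / 2) ^ 8 * (1 - x) ^ 2) +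
        (30064298 / 25) * ((x - 1 / 2) ^ 9 * (1 - x)) +
        (5956764 / 25) * ((x - 1 / 2) ^ 10)) +
      ((s - 1 / 2) * (1 - s) ^ 7) * ((1496064 / 5) * ((1 - x) ^ 10) +
        (75386368 / 25) * ((x - 1 / 2) * (1 - x) ^ 9) +
        (319472896 / 25) * ((x - 1 / 2) ^ 2 * (1 - x) ^ 8) +
        29518720 * ((x - 1 / 2) ^ 3 * (1 - x) ^ 7) +
        (1015867584 / 25) * ((x - 1 / 2) ^ 4 * (1 - x) ^ 6) +
        (901292192 / 25) * ((x - 1 / 2) ^ 5 * (1 - x) ^ 5) +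
        (669413488 / 25) * ((x - 1 / 2) ^ 6 * (1 - x) ^ 4) +
        (607627176 / 25) * ((x - 1 / 2) ^ 7 * (1 - x) ^ 3) +
        (101800024 / 5) * ((x - 1 / 2) ^ 8 * (1 - x) ^ 2) +
        (247338464 / 25) * ((x - 1 / 2) ^ 9 * (1 - x)) +
        (48326592 / 25) * ((x - 1 / 2) ^ 10)) +
      ((s - 1 / 2) ^ 2 * (1 - s) ^ 6) * ((5236224 / 5) * ((1 - x) ^ 10) +
        (264524288 / 25) * ((x - 1 / 2) * (1 - x) ^ 9) +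
        (1127217536 / 25) * ((x - 1 / 2) ^ 2 * (1 - x) ^ 8) +
        (526338048 / 5) * ((x - 1 / 2) ^ 3 * (1 - x) ^ 7) +
        (3699079904 / 25) * ((x - 1 / 2) ^ 4 * (1 - x) ^ 6) +
        (3413349792 / 25) * ((x - 1 / 2) ^ 5 * (1 - x) ^ 5) +
        (2642187368 / 25) * ((x - 1 / 2) ^ 6 * (1 - x) ^ 4) +
        (2349253456 / 25) * ((x - 1 / 2) ^ 7 * (1 - x) ^ 3) +
        (376829864 / 5) * ((x - 1 / 2) ^ 8 * (1 - x) ^ 2) +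
        (892227424 / 25) * ((x - 1 / 2) ^ 9 * (1 - x)) +
        (172050752 / 25) * ((x - 1 / 2) ^ 10)) +
      ((s - 1 / 2) ^ 3 * (1 - s) ^ 5) * ((10472448 / 5) * ((1 - x) ^ 10) +
        (530392576 / 25) * ((x - 1 / 2) * (1 - x) ^ 9) +
        (2271644672 / 25) * ((x - 1 / 2) ^ 2 * (1 - x) ^ 8) +
        (1070812416 / 5) * ((x - 1 / 2) ^ 3 * (1 - x) ^ 7) +
        (7663357248 / 25) * ((x - 1 / 2) ^ 4 * (1 - x) ^ 6) +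
        (7307429344 / 25) * ((x - 1 / 2) ^ 5 * (1 - x) ^ 5) +
        (5848389536 / 25) * ((x - 1 / 2) ^ 6 * (1 - x) ^ 4) +
        (5128225312 / 25) * ((x - 1 / 2) ^ 7 * (1 - x) ^ 3) +
        (794706208 / 5) * ((x - 1 / 2) ^ 8 * (1 - x) ^ 2) +
        (1840169088 / 25) * ((x - 1 / 2) ^ 9 * (1 - x)) +
        (350635264 / 25) * ((x - 1 / 2) ^ 10)) +
      ((s - 1 / 2) ^ 4 * (1 - s) ^ 4) * (2618112 * ((1 - x) ^ 10) +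
        (132934144 / 5) * ((x - 1 / 2) * (1 - x) ^ 9) +
        (571984768 / 5) * ((x - 1 / 2) ^ 2 * (1 - x) ^ 8) +
        271885440 * ((x - 1 / 2) ^ 3 * (1 - x) ^ 7) +
        (1976387152 / 5) * ((x - 1 / 2) ^ 4 * (1 - x) ^ 6) +
        (1936717056 / 5) * ((x - 1 / 2) ^ 5 * (1 - x) ^ 5) +
        (1592238304 / 5) * ((x - 1 / 2) ^ 6 * (1 - x) ^ 4) +
        (1382969408 / 5) * ((x - 1 / 2) ^ 7 * (1 - x) ^ 3) +
        208567312 * ((x - 1 / 2) ^ 8 * (1 - x) ^ 2) +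
        (473945792 / 5) * ((x - 1 / 2) ^ 9 * (1 - x)) +
        (89366656 / 5) * ((x - 1 / 2) ^ 10)) +
      ((s - 1 / 2) ^ 5 * (1 - s) ^ 3) * ((10472448 / 5) * ((1 - x) ^ 10) +
        (533080576 / 25) * ((x - 1 / 2) * (1 - x) ^ 9) +
        (2303318272 / 25) * ((x - 1 / 2) ^ 2 * (1 - x) ^ 8) +
        (1102841728 / 5) * ((x - 1 / 2) ^ 3 * (1 - x) ^ 7) +
        (8123689088 / 25) * ((x - 1 / 2) ^ 4 * (1 - x) ^ 6) +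
        (8141050624 / 25) * ((x - 1 / 2) ^ 5 * (1 - x) ^ 5) +
        (6837976576 / 25) * ((x - 1 / 2) ^ 6 * (1 - x) ^ 4) +
        (5899801472 / 25) * ((x - 1 / 2) ^ 7 * (1 - x) ^ 3) +
        (870991488 / 5) * ((x - 1 / 2) ^ 8 * (1 - x) ^ 2) +
        (1948697088 / 25) * ((x - 1 / 2) ^ 9 * (1 - x)) +
        (364176384 / 25) * ((x - 1 / 2) ^ 10)) +
      ((s - 1 / 2) ^ 6 * (1 - s) ^ 2) * ((5236224 / 5) * ((1 - x) ^ 10) +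
        (267212288 / 25) * ((x - 1 / 2) * (1 - x) ^ 9) +
        (1158891136 / 25) * ((x - 1 / 2) ^ 2 * (1 - x) ^ 8) +
        111668992 * ((x - 1 / 2) ^ 3 * (1 - x) ^ 7) +
        (4158402944 / 25) * ((x - 1 / 2) ^ 4 * (1 - x) ^ 6) +
        (4243215872 / 25) * ((x - 1 / 2) ^ 5 * (1 - x) ^ 5) +
        (3624193408 / 25) * ((x - 1 / 2) ^ 6 * (1 - x) ^ 4) +
        (3111810816 / 25) * ((x - 1 / 2) ^ 7 * (1 - x) ^ 3) +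
        (451846784 / 5) * ((x - 1 / 2) ^ 8 * (1 - x) ^ 2) +
        (998311424 / 25) * ((x - 1 / 2) ^ 9 * (1 - x)) +
        (185193472 / 25) * ((x - 1 / 2) ^ 10)) +
      ((s - 1 / 2) ^ 7 * (1 - s)) * ((1496064 / 5) * ((1 - x) ^ 10) +
        (76538368 / 25) * ((x - 1 / 2) * (1 - x) ^ 9) +
        (333047296 / 25) * ((x - 1 / 2) ^ 2 * (1 - x) ^ 8) +
        (161294848 / 5) * ((x - 1 / 2) ^ 3 * (1 - x) ^ 7) +
        (1211999744 / 25) * ((x - 1 / 2) ^ 4 * (1 - x) ^ 6) +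
        (1254272512 / 25) * ((x - 1 / 2) ^ 5 * (1 - x) ^ 5) +
        (1084891648 / 25) * ((x - 1 / 2) ^ 6 * (1 - x) ^ 4) +
        (928073216 / 25) * ((x - 1 / 2) ^ 7 * (1 - x) ^ 3) +
        (133062144 / 5) * ((x - 1 / 2) ^ 8 * (1 - x) ^ 2) +
        (291108864 / 25) * ((x - 1 / 2) ^ 9 * (1 - x)) +
        (53686272 / 25) * ((x - 1 / 2) ^ 10)) +
      ((s - 1 / 2) ^ 8) * ((187008 / 5) * ((1 - x) ^ 10) +
        (9591296 / 25) * ((x - 1 / 2) * (1 - x) ^ 9) +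
        (41856512 / 25) * ((x - 1 / 2) ^ 2 * (1 - x) ^ 8) +
        (20356096 / 5) * ((x - 1 / 2) ^ 3 * (1 - x) ^ 7) +
        (154007808 / 25) * ((x - 1 / 2) ^ 4 * (1 - x) ^ 6) +
        (161050624 / 25) * ((x - 1 / 2) ^ 5 * (1 - x) ^ 5) +
        (140550656 / 25) * ((x - 1 / 2) ^ 6 * (1 - x) ^ 4) +
        (119882752 / 25) * ((x - 1 / 2) ^ 7 * (1 - x) ^ 3) +
        (17027968 / 5) * ((x - 1 / 2) ^ 8 * (1 - x) ^ 2) +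
        (36981248 / 25) * ((x - 1 / 2) ^ 9 * (1 - x)) +
        (6790144 / 25) * ((x - 1 / 2) ^ 10)) := by
    ring
  rw [key]
  positivity

/-- Positivity on an interval. -/
lemma bB3 {x : ℝ} (h1 : 0 ≤ x - 1 / 2) (h2 : 0 ≤ 1 - x) :
    0 ≤ (3 * (x * (1 - x)) ^ 2 + 4 * (x * (1 - x)) ^ 3 - (x * (1 - x)) ^ 4 + 347 / 1280 - 1 / 2) * (1 + x ^ 2) + 2 * (x ^ 2) ^ 3 := by
  have key : (3 * (x * (1 - x)) ^ 2 + 4 * (x * (1 - x)) ^ 3 - (x * (1 - x)) ^ 4 + 347 / 1280 - 1 / 2) * (1 + x ^ 2) + 2 * (x ^ 2) ^ 3 =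
      (54) * ((1 - x) ^ 10) +
      (3704 / 5) * ((x - 1 / 2) * (1 - x) ^ 9) +
      (20108 / 5) * ((x - 1 / 2) ^ 2 * (1 - x) ^ 8) +
      (12344) * ((x - 1 / 2) ^ 3 * (1 - x) ^ 7) +
      (127402 / 5) * ((x - 1 / 2) ^ 4 * (1 - x) ^ 6) +
      (197536 / 5) * ((x - 1 / 2) ^ 5 * (1 - x) ^ 5) +
      (239604 / 5) * ((x - 1 / 2) ^ 6 * (1 - x) ^ 4) +
      (218088 / 5) * ((x - 1 / 2) ^ 7 * (1 - x) ^ 3) +
      (27035) * ((x - 1 / 2) ^ 8 * (1 - x) ^ 2) +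
      (49412 / 5) * ((x - 1 / 2) ^ 9 * (1 - x)) +
      (7896 / 5) * ((x - 1 / 2) ^ 10) := by
    ring
  rw [key]
  positivity

end Pool.Agent.H39.Brouwer
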