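import Pool.Agent.H39.Brouwer.Ineq

/-!
# Local certificates for the three forbidden subgraphs
-/

set_option autoImplicit false

namespace Pool.Agent.H39.Brouwer

/-- On the boundary `√a + √b = 1`. -/
lemma ev_boundary (α : ℝ) : ev (α ^ 2) + ev ((1 - α) ^ 2) =
    3 * (α * (1 - α)) ^ 2 + 4 * (α * (1 - α)) ^ 3 - (α * (1 - α)) ^ 4 := by
  unfold ev
  ring

lemma nn_boundary {α c : ℝ} (h1 : 1 - α ^ 2 * c ≠ 0) (h2 : 1 - (1 - α) ^ 2 * c ≠ 0) :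
    nn (α ^ 2) c + nn ((1 - α) ^ 2) c =
      c * ((1 - 4 * (α * (1 - α)) + 2 * (α * (1 - α)) ^ 2)
        - (1 - 6 * (α * (1 - α)) + 5 * (α * (1 - α)) ^ 2 - 2 * (α * (1 - α)) ^ 3) * c
        - (4 * (α * (1 - α)) ^ 3) * c ^ 2) / ((1 - α ^ 2 * c) * (1 - (1 - α) ^ 2 * c)) := by
  unfold nn
  rw [div_add_div _ _ h1 h2]
  congr 1
  ring

lemma den_boundary (α c : ℝ) : (1 - α ^ 2 * c) * (1 - (1 - α) ^ 2 * c) =
    1 - (1 - 2 * (α * (1 - α))) * c + (α * (1 - α)) ^ 2 * c ^ 2 := by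
  ring

/-- The inequality for `2K₂` on the boundary. -/
lemma boundary_2k2 {α γ : ℝ} (hα : 1 / 2 ≤ α) (hα1 : α ≤ 1) (hγ : 1 / 2 ≤ γ) (hγ1 : γ ≤ 1)
    (h : α ^ 2 * γ ^ 2 < 1) :
    1 / 2 ≤ ev (α ^ 2) + ev ((1 - α) ^ 2) + (ev (γ ^ 2) + ev ((1 - γ) ^ 2)) +
      (nn (α ^ 2) (γ ^ 2) + nn (α ^ 2) ((1 - γ) ^ 2) + nn ((1 - α) ^ 2) (γ ^ 2) +
        nn ((1 - α) ^ 2) ((1 - γ) ^ 2)) := by
  have hαs : (1 - α) ^ 2 ≤ α ^ 2 := by nlinarith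
  have hγs : (1 - γ) ^ 2 ≤ γ ^ 2 := by nlinarith
  have p1 : 0 < 1 - α ^ 2 * γ ^ 2 := by linarith
  have p2 : 0 < 1 - (1 - α) ^ 2 * γ ^ 2 := by
    have := mul_le_mul_of_nonneg_right hαs (sq_nonneg γ)
    linarith
  have p3 : 0 < 1 - α ^ 2 * (1 - γ) ^ 2 := by
    have := mul_le_mul_of_nonneg_left hγs (sq_nonneg α)
    linarith
  have p4 : 0 < 1 - (1 - α) ^ 2 * (1 - γ) ^ 2 := by
    have := mul_le_mul_of_nonneg_right hαs (sq_nonneg (1 - γ))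
    linarith
  have e1 := nn_boundary p1.ne' p2.ne'
  have e2 := nn_boundary p3.ne' p4.ne'
  have d1 : 0 < (1 - α ^ 2 * γ ^ 2) * (1 - (1 - α) ^ 2 * γ ^ 2) := mul_pos p1 p2
  have d2 : 0 < (1 - α ^ 2 * (1 - γ) ^ 2) * (1 - (1 - α) ^ 2 * (1 - γ) ^ 2) := mul_pos p3 p4
  rw [den_boundary] at e1 e2 d1 d2
  set t : ℝ := α * (1 - α) with ht
  set u : ℝ := γ * (1 - γ) with hu
  have ht0 : 0 ≤ t := mul_nonneg (by linarith) (by linarith)
  have hu0 : 0 ≤ u := mul_nonneg (by linarith) (by linarith)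
  have ht1 : t ≤ 1 / 4 := by rw [ht]; nlinarith [sq_nonneg (α - 1 / 2)]
  have hu1 : u ≤ 1 / 4 := by rw [hu]; nlinarith [sq_nonneg (γ - 1 / 2)]
  have hbox := bB1 ht0 (by linarith : 0 ≤ 1 / 4 - t) hu0 (by linarith : 0 ≤ 1 / 4 - u)
  rw [ev_boundary, ev_boundary, ← ht, ← hu]
  have e3 : nn (α ^ 2) (γ ^ 2) + nn (α ^ 2) ((1 - γ) ^ 2) + nn ((1 - α) ^ 2) (γ ^ 2) +
      nn ((1 - α) ^ 2) ((1 - γ) ^ 2) = (nn (α ^ 2) (γ ^ 2) + nn ((1 - α) ^ 2) (γ ^ 2)) +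
        (nn (α ^ 2) ((1 - γ) ^ 2) + nn ((1 - α) ^ 2) ((1 - γ) ^ 2)) := by ring
  rw [e3, e1, e2, div_add_div _ _ d1.ne' d2.ne']
  have hden : (1 - (1 - 2 * t) * γ ^ 2 + t ^ 2 * (γ ^ 2) ^ 2) *
      (1 - (1 - 2 * t) * (1 - γ) ^ 2 + t ^ 2 * ((1 - γ) ^ 2) ^ 2) =
      (1 - (1 - 2 * t) * (1 - 2 * u) + t ^ 2 * ((1 - 2 * u) ^ 2 - 2 * u ^ 2) +
        (1 - 2 * t) ^ 2 * u ^ 2 - (1 - 2 * t) * t ^ 2 * u ^ 2 * (1 - 2 * u) + t ^ 4 * u ^ 4) := by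
    rw [hu]
    ring
  have hnum : γ ^ 2 * (1 - 4 * t + 2 * t ^ 2 - (1 - 6 * t + 5 * t ^ 2 - 2 * t ^ 3) * γ ^ 2 -
        4 * t ^ 3 * (γ ^ 2) ^ 2) * (1 - (1 - 2 * t) * (1 - γ) ^ 2 + t ^ 2 * ((1 - γ) ^ 2) ^ 2) +
      (1 - (1 - 2 * t) * γ ^ 2 + t ^ 2 * (γ ^ 2) ^ 2) * ((1 - γ) ^ 2 *
        (1 - 4 * t + 2 * t ^ 2 - (1 - 6 * t + 5 * t ^ 2 - 2 * t ^ 3) * (1 - γ) ^ 2 -
          4 * t ^ 3 * ((1 - γ) ^ 2) ^ 2)) =
      ((1 - 4 * t + 2 * t ^ 2) * ((1 - 2 * u) - 2 * (1 - 2 * t) * u ^ 2 +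
        t ^ 2 * u ^ 2 * (1 - 2 * u)) - (1 - 6 * t + 5 * t ^ 2 - 2 * t ^ 3) *
        ((1 - 2 * u) ^ 2 - 2 * u ^ 2 - (1 - 2 * t) * u ^ 2 * (1 - 2 * u) + 2 * t ^ 2 * u ^ 4) -
        (4 * t ^ 3) * ((1 - 2 * u) ^ 3 - 3 * u ^ 2 * (1 - 2 * u) -
          (1 - 2 * t) * u ^ 2 * ((1 - 2 * u) ^ 2 - 2 * u ^ 2) +
          t ^ 2 * u ^ 4 * (1 - 2 * u))) := by
    rw [hu]
    ring
  have hD : 0 < (1 - (1 - 2 * t) * (1 - 2 * u) + t ^ 2 * ((1 - 2 * u) ^ 2 - 2 * u ^ 2) +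
        (1 - 2 * t) ^ 2 * u ^ 2 - (1 - 2 * t) * t ^ 2 * u ^ 2 * (1 - 2 * u) + t ^ 4 * u ^ 4) := by
    rw [← hden]
    exact mul_pos d1 d2
  rw [hden, hnum]
  rw [← sub_nonneg]
  have hq := div_nonneg hbox hD.le
  rw [add_div, mul_div_assoc, div_self hD.ne', mul_one] at hq
  linarith

/-- Reduction of an edge to the boundary. -/
lemma red {a b : ℝ} (hb : 0 ≤ b) (hab : b ≤ a) (ha : a ≤ 1) (h : 1 ≤ √a + √b) :
    ∃ α : ℝ, 1 / 2 ≤ α ∧ α ≤ 1 ∧ α ^ 2 ≤ a ∧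
      ∀ c d : ℝ, 0 ≤ d → d ≤ c → c ≤ 1 → 1 / 4 ≤ c → a * c < 1 →
        ev (α ^ 2) + ev ((1 - α) ^ 2) + (nn (α ^ 2) c + nn (α ^ 2) d + nn ((1 - α) ^ 2) c +
          nn ((1 - α) ^ 2) d) ≤ ev a + ev b + (nn a c + nn a d + nn b c + nn b d) := by
  rcases le_or_gt (1 / 4) b with h4 | h4
  · refine ⟨1 / 2, le_rfl, by norm_num, by linarith, ?_⟩
    intro c d hd hdc hc hc4 hac
    have ha4 : 1 / 4 ≤ a := h4.trans hab
    have hbc : b * c < 1 := lt_of_le_of_lt (mul_le_mul_of_nonneg_right hab (by linarith)) hac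
    have had : a * d < 1 := lt_of_le_of_lt (mul_le_mul_of_nonneg_left hdc (by linarith)) hac
    have hbd : b * d < 1 := lt_of_le_of_lt (mul_le_mul_of_nonneg_right hab hd) had
    have e1 : ((1 : ℝ) / 2) ^ 2 = 1 / 4 := by norm_num
    have e2 : ((1 : ℝ) - 1 / 2) ^ 2 = 1 / 4 := by norm_num
    rw [e1, e2]
    have h1 := lem_M1 ha4 ha hc4 hc hac
    have h2 := lem_M1 h4 (hab.trans ha) hc4 hc hbc
    have h3 := nn_mono (by norm_num : (0 : ℝ) ≤ 1 / 4) ha4 ha hd (hdc.trans hc) had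
    have h4' := nn_mono (by norm_num : (0 : ℝ) ≤ 1 / 4) h4 (hab.trans ha) hd (hdc.trans hc) hbd
    linarith
  · have ha0 : 0 ≤ a := hb.trans hab
    have hsa : √a ≤ 1 := by
      rw [← Real.sqrt_one]
      exact Real.sqrt_le_sqrt ha
    have hsb : √b < 1 / 2 := by
      rw [Real.sqrt_lt' (by norm_num)]
      linarith
    have hsa2 : √a ^ 2 = a := Real.sq_sqrt ha0
    have hsb2 : √b ^ 2 = b := Real.sq_sqrt hb
    have hb' : (1 - √a) ^ 2 ≤ b := by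
      rw [← hsb2]
      exact pow_le_pow_left₀ (by linarith) (by linarith) 2
    refine ⟨√a, by linarith, hsa, hsa2.le, ?_⟩
    intro c d hd hdc hc hc4 hac
    have hbc : b * c < 1 := lt_of_le_of_lt (mul_le_mul_of_nonneg_right hab (by linarith)) hac
    have had : a * d < 1 := lt_of_le_of_lt (mul_le_mul_of_nonneg_left hdc (by linarith)) hac
    have hbd : b * d < 1 := lt_of_le_of_lt (mul_le_mul_of_nonneg_right hab hd) had
    rw [hsa2]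
    have h1 := ev_mono (sq_nonneg (1 - √a)) hb' h4.le
    have h2 := nn_mono (sq_nonneg (1 - √a)) hb' (hab.trans ha) (by linarith : (0 : ℝ) ≤ c) hc hbc
    have h3 := nn_mono (sq_nonneg (1 - √a)) hb' (hab.trans ha) hd (hdc.trans hc) hbd
    linarith

lemma quarter_le {a b : ℝ} (hab : b ≤ a) (h : 1 ≤ √a + √b) : 1 / 4 ≤ a := by
  have h1 : √b ≤ √a := Real.sqrt_le_sqrt hab
  have h2 : 1 / 2 ≤ √a := by linarith
  have := (Real.le_sqrt' (by norm_num : (0 : ℝ) < 1 / 2)).1 h2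
  linarith

/-- The certificate for `2K₂`, ordered form. -/
lemma cert_2k2_aux {a b c d : ℝ} (hb : 0 ≤ b) (hab : b ≤ a) (ha : a ≤ 1) (hd : 0 ≤ d)
    (hdc : d ≤ c) (hc : c ≤ 1) (h1 : 1 ≤ √a + √b) (h2 : 1 ≤ √c + √d) (hac : a * c < 1) :
    1 / 2 ≤ ev a + ev b + (ev c + ev d) + (nn a c + nn a d + nn b c + nn b d) := by
  have hc4 := quarter_le hdc h2
  obtain ⟨α, hα, hα1, hαa, hA⟩ := red hb hab ha h1
  obtain ⟨γ, hγ, hγ1, hγc, hC⟩ := red hd hdc hc h2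
  have h3 := hA c d hd hdc hc hc4 hac
  have hα4 : 1 / 4 ≤ α ^ 2 := by nlinarith
  have hαs : (1 - α) ^ 2 ≤ α ^ 2 := by nlinarith
  have hcα : c * α ^ 2 < 1 := by
    have := mul_le_mul_of_nonneg_left hαa (by linarith : 0 ≤ c)
    linarith
  have h4 := hC (α ^ 2) ((1 - α) ^ 2) (sq_nonneg _) hαs (hαa.trans ha) hα4 hcα
  have hαγ : α ^ 2 * γ ^ 2 < 1 := by
    have := mul_le_mul_of_nonneg_left hγc (sq_nonneg α)
    linarith
  have h5 := boundary_2k2 hα hα1 hγ hγ1 hαγ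
  rw [nn_comm c (α ^ 2), nn_comm c ((1 - α) ^ 2), nn_comm d (α ^ 2), nn_comm d ((1 - α) ^ 2),
    nn_comm (γ ^ 2) (α ^ 2), nn_comm (γ ^ 2) ((1 - α) ^ 2), nn_comm ((1 - γ) ^ 2) (α ^ 2),
    nn_comm ((1 - γ) ^ 2) ((1 - α) ^ 2)] at h4
  linarith

/-- The certificate for `2K₂` with edges `ab` and `cd`. -/
theorem cert_2k2 {a b c d : ℝ} (ha0 : 0 ≤ a) (ha : a ≤ 1) (hb0 : 0 ≤ b) (hb : b ≤ 1)
    (hc0 : 0 ≤ c) (hc : c ≤ 1) (hd0 : 0 ≤ d) (hd : d ≤ 1) (h1 : 1 ≤ √a + √b)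
    (h2 : 1 ≤ √c + √d) (hac : a * c < 1) (had : a * d < 1) (hbc : b * c < 1) (hbd : b * d < 1) :
    1 / 2 ≤ ev a + ev b + (ev c + ev d) + (nn a c + nn a d + nn b c + nn b d) := by
  rcases le_total b a with hab | hab
  · rcases le_total d c with hdc | hdc
    · exact cert_2k2_aux hb0 hab ha hd0 hdc hc h1 h2 hac
    · have := cert_2k2_aux hb0 hab ha hc0 hdc hd h1 (by linarith) had
      linarith
  · rcases le_total d c with hdc | hdc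
    · have := cert_2k2_aux ha0 hab hb hd0 hdc hc (by linarith) h2 hbc
      linarith
    · have := cert_2k2_aux ha0 hab hb hc0 hdc hd (by linarith) (by linarith) hbd
      linarith

/-- The certificate for `C₄`, ordered form: `a, b` non-adjacent, `c, d` non-adjacent. -/
lemma cert_c4_aux {a b c d X : ℝ} (hb : 0 ≤ b) (hab : b ≤ a) (ha : a ≤ 1) (hbd : b ≤ d)
    (hdc : d ≤ c) (hc : c ≤ 1) (h1 : 1 ≤ √b + √d) (hnab : a * b < 1) (hncd : c * d < 1)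
    (hX : 2 / 5 * ((1 - b) * (1 - d) - √b * √d) - 3 / 100 ≤ X) (hX0 : 0 ≤ X) :
    1 / 2 ≤ ev a + ev b + (ev c + ev d) + (nn a b + nn c d) + X := by
  have hd4 : 1 / 4 ≤ d := quarter_le hbd (by linarith)
  have hc4 : 1 / 4 ≤ c := hd4.trans hdc
  rcases le_or_gt (1 / 4) b with h4 | h4
  · have k1 := pair_quarter (h4.trans hab) ha h4 (hab.trans ha) hnab
    have k2 := pair_quarter hc4 hc hd4 (hdc.trans hc) hncd
    linarith
  · have k1 := lem_M0 hb h4.le hab ha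
    have k2 := lem_M hd4 hdc hc hncd
    have hd1 : d < 1 := by nlinarith
    have hd0 : 0 ≤ d := by linarith
    rw [nn_self hd1 hd0] at k2
    have hsb2 : √b ^ 2 = b := Real.sq_sqrt hb
    have hsd2 : √d ^ 2 = d := Real.sq_sqrt hd0
    have hsb0 : 0 ≤ √b := Real.sqrt_nonneg _
    have hsb : √b < 1 / 2 := by
      rw [Real.sqrt_lt' (by norm_num)]
      linarith
    have hsd1 : √d ≤ 1 := by
      rw [← Real.sqrt_one]
      exact Real.sqrt_le_sqrt hd1.le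
    have hsd : 1 / 2 < √d := by linarith
    set x : ℝ := √d with hx
    set y : ℝ := √b with hy
    have hx2 : 0 < x - 1 / 2 := by linarith
    set s : ℝ := (y - (1 - x)) / (x - 1 / 2) with hs
    have hys : y = 1 - x + s * (x - 1 / 2) := by
      rw [hs, div_mul_cancel₀ _ hx2.ne']
      ring
    have hs0 : 0 ≤ s := div_nonneg (by linarith) hx2.le
    have hs1 : s ≤ 1 := by rw [hs, div_le_one hx2]; linarith
    have hbox : 0 ≤ (y ^ 2 * (1 - y ^ 2) ^ 2 * (1 - y ^ 2 / 2) + y ^ 2 / 2 +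
        2 / 5 * ((1 - y ^ 2) * (1 - x ^ 2) - y * x) - 3 / 100 +
        2 * (x ^ 2 * (1 - x ^ 2) ^ 2 * (1 - x ^ 2 / 2)) - 1 / 2) * (1 + x ^ 2) +
        2 * (x ^ 2) ^ 3 := by
      rw [hys]
      rcases le_or_gt s (1 / 2) with h5 | h5
      · rcases le_or_gt x (3 / 4) with h6 | h6
        · exact bB2a hs0 (by linarith) (by linarith) (by linarith)
        · exact bB2b hs0 (by linarith) (by linarith) (by linarith)
      · exact bB2c (by linarith) (by linarith) (by linarith) (by linarith)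
    rw [hsb2, hsd2] at hbox
    have h1d : 0 < 1 + d := by linarith
    have hq := div_nonneg hbox h1d.le
    rw [add_div, mul_div_assoc, div_self h1d.ne', mul_one] at hq
    have e1 : ev b = b * (1 - b) ^ 2 * (1 - b / 2) := rfl
    have e2 : ev d = d * (1 - d) ^ 2 * (1 - d / 2) := rfl
    linarith

/-- The lower bound for the slack of an edge used for `C₄`. -/
def EdgeX (p r X : ℝ) : Prop := 0 ≤ X ∧ 2 / 5 * ((1 - p) * (1 - r) - √p * √r) - 3 / 100 ≤ X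

lemma EdgeX.symm {p r X : ℝ} (h : EdgeX p r X) : EdgeX r p X := by
  refine ⟨h.1, ?_⟩
  have := h.2
  rw [mul_comm (1 - r), mul_comm √r]
  exact this

/-- The certificate for `C₄`: `a, b` non-adjacent, `c, d` non-adjacent. -/
theorem cert_c4 {a b c d X1 X2 X3 X4 : ℝ} (ha0 : 0 ≤ a) (ha : a ≤ 1) (hb0 : 0 ≤ b) (hb : b ≤ 1)
    (hc0 : 0 ≤ c) (hc : c ≤ 1) (hd0 : 0 ≤ d) (hd : d ≤ 1) (h1 : 1 ≤ √a + √c)
    (h2 : 1 ≤ √a + √d) (h3 : 1 ≤ √b + √c) (h4 : 1 ≤ √b + √d) (hab : a * b < 1)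
    (hcd : c * d < 1) (x1 : EdgeX a c X1) (x2 : EdgeX a d X2) (x3 : EdgeX b c X3)
    (x4 : EdgeX b d X4) :
    1 / 2 ≤ ev a + ev b + (ev c + ev d) + (nn a b + nn c d) + (X1 + X2 + X3 + X4) := by
  have main : ∀ {a b c d X1 X2 X3 X4 : ℝ}, 0 ≤ a → a ≤ 1 → 0 ≤ b → b ≤ 1 → 0 ≤ c → c ≤ 1 →
      0 ≤ d → d ≤ 1 → 1 ≤ √a + √c → 1 ≤ √a + √d → 1 ≤ √b + √c → 1 ≤ √b + √d → a * b < 1 →
      c * d < 1 → EdgeX a c X1 → EdgeX a d X2 → EdgeX b c X3 → EdgeX b d X4 →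
      b ≤ a → d ≤ c →
      1 / 2 ≤ ev a + ev b + (ev c + ev d) + (nn a b + nn c d) + (X1 + X2 + X3 + X4) := by
    intro a b c d X1 X2 X3 X4 ha0 ha hb0 hb hc0 hc hd0 hd h1 h2 h3 h4 hab hcd x1 x2 x3 x4 l1 l2
    have := x1.1
    have := x2.1
    have := x3.1
    rcases le_total b d with l3 | l3
    · have := cert_c4_aux hb0 l1 ha l3 l2 hc h4 hab hcd x4.2 x4.1
      linarith
    · have := cert_c4_aux hd0 l2 hc l3 l1 ha (by linarith) hcd hab x4.symm.2 x4.1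
      linarith
  rcases le_total b a with l1 | l1
  · rcases le_total d c with l2 | l2
    · exact main ha0 ha hb0 hb hc0 hc hd0 hd h1 h2 h3 h4 hab hcd x1 x2 x3 x4 l1 l2
    · have := main ha0 ha hb0 hb hd0 hd hc0 hc h2 h1 h4 h3 hab (by linarith) x2 x1 x4 x3 l1 l2
      rw [nn_comm d c] at this
      linarith
  · rcases le_total d c with l2 | l2
    · have := main hb0 hb ha0 ha hc0 hc hd0 hd h3 h4 h1 h2 (by linarith) hcd x3 x4 x1 x2 l1 l2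
      rw [nn_comm b a] at this
      linarith
    · have := main hb0 hb ha0 ha hd0 hd hc0 hc h4 h3 h2 h1 (by linarith) (by linarith)
        x4 x3 x2 x1 l1 l2
      rw [nn_comm b a, nn_comm d c] at this
      linarith

/-- The certificate for `C₅`, when `p₁ < 1/4` and `p₅ ≤ p₂`. -/
lemma cert_c5_aux {p1 p2 p3 p4 p5 : ℝ} (h10 : 0 ≤ p1) (h14 : p1 < 1 / 4)
    (h21 : p2 ≤ 1) (h30 : 0 ≤ p3) (h31 : p3 ≤ 1) (h40 : 0 ≤ p4) (h41 : p4 ≤ 1) (h50 : 0 ≤ p5)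
    (h52 : p5 ≤ p2) (e34 : 1 ≤ √p3 + √p4) (e51 : 1 ≤ √p5 + √p1)
    (n24 : p2 * p4 < 1) (n25 : p2 * p5 < 1) (n35 : p3 * p5 < 1) :
    1 / 2 ≤ ev p1 + ev p2 + ev p3 + ev p4 + ev p5 + (nn p2 p4 + nn p2 p5 + nn p3 p5) := by
  have h51 : p5 ≤ 1 := h52.trans h21
  have h20 : 0 ≤ p2 := h50.trans h52
  have hs1 : √p1 < 1 / 2 := by
    rw [Real.sqrt_lt' (by norm_num)]
    linarith
  have hs5 : 1 / 2 < √p5 := by linarith
  have hs51 : √p5 ≤ 1 := by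
    rw [← Real.sqrt_one]
    exact Real.sqrt_le_sqrt h51
  have h54 : 1 / 4 ≤ p5 := by
    have := (Real.le_sqrt' (by norm_num : (0 : ℝ) < 1 / 2)).1 hs5.le
    linarith
  have h24 : 1 / 4 ≤ p2 := h54.trans h52
  have hp5 : p5 < 1 := by nlinarith
  have k1 := lem_M h54 h52 h21 n25
  rw [nn_self hp5 h50] at k1
  have hsq5 : √p5 ^ 2 = p5 := Real.sq_sqrt h50
  have hsq1 : √p1 ^ 2 = p1 := Real.sq_sqrt h10
  have k2 : ev ((1 - √p5) ^ 2) ≤ ev p1 := by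
    apply ev_mono (sq_nonneg _) _ h14.le
    rw [← hsq1]
    exact pow_le_pow_left₀ (by linarith) (by linarith) 2
  have k3 := ev_boundary √p5
  rw [hsq5] at k3
  have k4 := lem_M1 h54 h51 (le_refl (1 / 4 : ℝ)) (by norm_num) (by linarith)
  have k5 : ev (1 / 4) + nn (1 / 4) p5 ≤ ev p3 + ev p4 + nn p2 p4 + nn p3 p5 := by
    have g3 := ev_nonneg h30 h31
    have g4 := ev_nonneg h40 h41
    have g24 := nn_nonneg h20 h21 h40 h41
    have g35 := nn_nonneg h30 h31 h50 h51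
    rcases le_total p4 p3 with l | l
    · have := lem_M1 (quarter_le l e34) h31 h54 h51 n35
      linarith
    · have h44 : 1 / 4 ≤ p4 := quarter_le l (by linarith)
      have m1 := lem_M1 h44 h41 h24 h21 (by linarith)
      have m2 := nn_mono h50 h52 h21 (by norm_num : (0 : ℝ) ≤ 1 / 4) (by norm_num) (by linarith)
      rw [nn_comm p4 p2] at m1
      rw [nn_comm p5 (1 / 4), nn_comm p2 (1 / 4)] at m2
      linarith
  have k6 := ev_quarter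
  rw [nn_comm p5 (1 / 4)] at k4
  have hbox := bB3 (x := √p5) (by linarith) (by linarith)
  rw [hsq5] at hbox
  have h1d : 0 < 1 + p5 := by linarith
  have hq := div_nonneg hbox h1d.le
  rw [add_div, mul_div_assoc, div_self h1d.ne', mul_one] at hq
  linarith

/-- The certificate for `C₅` with edges `12, 23, 34, 45, 51`, when `p₁ < 1/4`. -/
lemma cert_c5_small {p1 p2 p3 p4 p5 : ℝ} (h10 : 0 ≤ p1) (h14 : p1 < 1 / 4) (h20 : 0 ≤ p2)
    (h21 : p2 ≤ 1) (h30 : 0 ≤ p3) (h31 : p3 ≤ 1) (h40 : 0 ≤ p4) (h41 : p4 ≤ 1) (h50 : 0 ≤ p5)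
    (h51 : p5 ≤ 1) (e12 : 1 ≤ √p1 + √p2) (e34 : 1 ≤ √p3 + √p4)
    (e51 : 1 ≤ √p5 + √p1) (n24 : p2 * p4 < 1) (n25 : p2 * p5 < 1) (n35 : p3 * p5 < 1) :
    1 / 2 ≤ ev p1 + ev p2 + ev p3 + ev p4 + ev p5 + (nn p2 p4 + nn p2 p5 + nn p3 p5) := by
  rcases le_total p5 p2 with l | l
  · exact cert_c5_aux h10 h14 h21 h30 h31 h40 h41 h50 l e34 e51 n24 n25 n35
  · have := cert_c5_aux h10 h14 h51 h40 h41 h30 h31 h20 l (by linarith) (by linarith)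
      (by linarith) (by linarith) (by linarith)
    rw [nn_comm p5 p3, nn_comm p5 p2, nn_comm p4 p2] at this
    linarith

/-- The certificate for `C₅` with edges `12, 23, 34, 45, 51`. -/
theorem cert_c5 {p1 p2 p3 p4 p5 : ℝ} (h10 : 0 ≤ p1) (h11 : p1 ≤ 1) (h20 : 0 ≤ p2)
    (h21 : p2 ≤ 1) (h30 : 0 ≤ p3) (h31 : p3 ≤ 1) (h40 : 0 ≤ p4) (h41 : p4 ≤ 1) (h50 : 0 ≤ p5)
    (h51 : p5 ≤ 1) (e12 : 1 ≤ √p1 + √p2) (e23 : 1 ≤ √p2 + √p3) (e34 : 1 ≤ √p3 + √p4)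
    (e45 : 1 ≤ √p4 + √p5) (e51 : 1 ≤ √p5 + √p1) (n13 : p1 * p3 < 1) (n14 : p1 * p4 < 1)
    (n24 : p2 * p4 < 1) (n25 : p2 * p5 < 1) (n35 : p3 * p5 < 1) :
    1 / 2 ≤ ev p1 + ev p2 + ev p3 + ev p4 + ev p5 +
      (nn p1 p3 + nn p1 p4 + nn p2 p4 + nn p2 p5 + nn p3 p5) := by
  have g13 := nn_nonneg h10 h11 h30 h31
  have g14 := nn_nonneg h10 h11 h40 h41
  have g24 := nn_nonneg h20 h21 h40 h41
  have g25 := nn_nonneg h20 h21 h50 h51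
  have g35 := nn_nonneg h30 h31 h50 h51
  rcases lt_or_ge p1 (1 / 4) with l1 | l1
  · have := cert_c5_small h10 l1 h20 h21 h30 h31 h40 h41 h50 h51 e12 e34 e51 n24 n25 n35
    linarith
  rcases lt_or_ge p2 (1 / 4) with l2 | l2
  · have := cert_c5_small h20 l2 h30 h31 h40 h41 h50 h51 h10 h11 e23 e45 e12 n35
      (by linarith) (by linarith)
    rw [nn_comm p3 p1, nn_comm p4 p1] at this
    linarith
  rcases lt_or_ge p3 (1 / 4) with l3 | l3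
  · have := cert_c5_small h30 l3 h40 h41 h50 h51 h10 h11 h20 h21 e34 e51 e23 (by linarith)
      (by linarith) (by linarith)
    rw [nn_comm p4 p1, nn_comm p4 p2, nn_comm p5 p2] at this
    linarith
  rcases lt_or_ge p4 (1 / 4) with l4 | l4
  · have := cert_c5_small h40 l4 h50 h51 h10 h11 h20 h21 h30 h31 e45 e12 e34 (by linarith)
      (by linarith) (by linarith)
    rw [nn_comm p5 p2, nn_comm p5 p3] at this
    linarith
  rcases lt_or_ge p5 (1 / 4) with l5 | l5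
  · have := cert_c5_small h50 l5 h10 h11 h20 h21 h30 h31 h40 h41 e51 e23 e45 (by linarith)
      (by linarith) (by linarith)
    linarith
  have k1 := pair_quarter l1 h11 l3 h31 n13
  have k2 := pair_quarter l2 h21 l4 h41 n24
  have k3 := ev_nonneg h50 h51
  linarith

end Pool.Agent.H39.Brouwer
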