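import Pool.Agent.H39.Brouwer.Boxes

/-!
# Scalar inequalities for the local certificates
-/

set_option autoImplicit false

namespace Pool.Agent.H39.Brouwer

/-- The vertex term `p (1-p)² (1-p/2)`. -/
noncomputable def ev (p : ℝ) : ℝ := p * (1 - p) ^ 2 * (1 - p / 2)

/-- The non-edge term `p r (p + r - 2 p r) / (1 - p r)`. -/
noncomputable def nn (p r : ℝ) : ℝ := p * r * (p + r - 2 * (p * r)) / (1 - p * r)

lemma nn_comm (p r : ℝ) : nn p r = nn r p := by
  unfold nn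
  rw [mul_comm p r, add_comm p r]

lemma ev_nonneg {p : ℝ} (h0 : 0 ≤ p) (h1 : p ≤ 1) : 0 ≤ ev p := by
  unfold ev
  have : 0 ≤ 1 - p / 2 := by linarith
  positivity

lemma nn_nonneg {p r : ℝ} (h0 : 0 ≤ p) (h1 : p ≤ 1) (k0 : 0 ≤ r) (k1 : r ≤ 1) : 0 ≤ nn p r := by
  unfold nn
  apply div_nonneg
  · apply mul_nonneg (mul_nonneg h0 k0)
    nlinarith [mul_nonneg h0 (sub_nonneg.2 k1), mul_nonneg k0 (sub_nonneg.2 h1)]
  · nlinarith [mul_nonneg h0 (sub_nonneg.2 k1)]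

lemma ev_mono {x y : ℝ} (hx : 0 ≤ x) (hxy : x ≤ y) (hy : y ≤ 1 / 4) : ev x ≤ ev y := by
  have e : ev y - ev x = (y - x) * (1 - 5 / 2 * (x + y) + 2 * (x ^ 2 + x * y + y ^ 2)
      - 1 / 2 * (x ^ 3 + x ^ 2 * y + x * y ^ 2 + y ^ 3)) := by
    unfold ev
    ring
  have h : 0 ≤ 1 - 5 / 2 * (x + y) + 2 * (x ^ 2 + x * y + y ^ 2)
      - 1 / 2 * (x ^ 3 + x ^ 2 * y + x * y ^ 2 + y ^ 3) := by
    have hy0 : 0 ≤ y := hx.trans hxy
    have hx4 : x ≤ 1 / 4 := hxy.trans hy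
    nlinarith [mul_nonneg hx hy0, mul_nonneg hx hx, mul_nonneg hy0 hy0,
      mul_nonneg (mul_nonneg hx hx) (sub_nonneg.2 hx4),
      mul_nonneg (mul_nonneg hx hx) (sub_nonneg.2 hy),
      mul_nonneg (mul_nonneg hy0 hy0) (sub_nonneg.2 hx4),
      mul_nonneg (mul_nonneg hy0 hy0) (sub_nonneg.2 hy),
      mul_nonneg (sub_nonneg.2 hx4) (sub_nonneg.2 hy),
      mul_nonneg (sub_nonneg.2 hx4) (sub_nonneg.2 hx4),
      mul_nonneg (sub_nonneg.2 hy) (sub_nonneg.2 hy)]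
  have := mul_nonneg (sub_nonneg.2 hxy) h
  linarith

lemma nn_sub {a b c : ℝ} (h1 : 1 - a * c ≠ 0) (h2 : 1 - b * c ≠ 0) :
    nn a c - nn b c = (a - b) * (c * (c + (1 - 2 * c) * (a + b - a * b * c)))
      / ((1 - a * c) * (1 - b * c)) := by
  unfold nn
  rw [div_sub_div _ _ h1 h2]
  congr 1
  ring

lemma nn_mono {a b c : ℝ} (hb : 0 ≤ b) (hab : b ≤ a) (ha : a ≤ 1) (hc : 0 ≤ c) (hc1 : c ≤ 1)
    (h : a * c < 1) : nn b c ≤ nn a c := by
  have h1 : 0 < 1 - a * c := by linarith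
  have hbc : b * c ≤ a * c := mul_le_mul_of_nonneg_right hab hc
  have h2 : 0 < 1 - b * c := by linarith
  have ha0 : 0 ≤ a := hb.trans hab
  have key : 0 ≤ c + (1 - 2 * c) * (a + b - a * b * c) := by
    have hb1 : b ≤ 1 := hab.trans ha
    have hk : 0 ≤ a + b - a * b * c := by
      nlinarith [mul_nonneg ha0 (sub_nonneg.2 hb1), mul_nonneg (mul_nonneg ha0 hb)
        (sub_nonneg.2 hc1)]
    rcases le_or_gt c (1 / 2) with hc2 | hc2
    · have : 0 ≤ (1 - 2 * c) * (a + b - a * b * c) := mul_nonneg (by linarith) hk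
      linarith
    · have hk2 : a + b - a * b * c ≤ 2 - c := by
        have e : 2 - c - (a + b - a * b * c) = (1 - a) * (1 - b * c) + (1 - b) * (1 - c) := by ring
        have : 0 ≤ (1 - a) * (1 - b * c) + (1 - b) * (1 - c) := by
          have := mul_nonneg (sub_nonneg.2 ha) h2.le
          have := mul_nonneg (sub_nonneg.2 hb1) (sub_nonneg.2 hc1)
          linarith
        linarith
      have h3 : (2 * c - 1) * (a + b - a * b * c) ≤ (2 * c - 1) * (2 - c) :=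
        mul_le_mul_of_nonneg_left hk2 (by linarith)
      nlinarith [sq_nonneg (1 - c)]
  have e := nn_sub h1.ne' h2.ne'
  have : 0 ≤ (a - b) * (c * (c + (1 - 2 * c) * (a + b - a * b * c)))
      / ((1 - a * c) * (1 - b * c)) := by
    have := sub_nonneg.2 hab
    positivity
  linarith

lemma ev_sub (a b : ℝ) : ev a - ev b = (a - b) * (1 - 5 / 2 * (a + b) +
    2 * (a ^ 2 + a * b + b ^ 2) - 1 / 2 * (a ^ 3 + a ^ 2 * b + a * b ^ 2 + b ^ 3)) := by
  unfold ev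
  ring

lemma comb_nonneg {a b c : ℝ} (hab : b ≤ a) (h1 : 0 < 1 - a * c) (h2 : 0 < 1 - b * c)
    (h : 0 ≤ c * (c + (1 - 2 * c) * (a + b - a * b * c)) + (1 - a * c) * (1 - b * c) *
      (1 - 5 / 2 * (a + b) + 2 * (a ^ 2 + a * b + b ^ 2) -
        1 / 2 * (a ^ 3 + a ^ 2 * b + a * b ^ 2 + b ^ 3))) :
    ev b + nn b c ≤ ev a + nn a c := by
  have e : (ev a + nn a c) - (ev b + nn b c) = (a - b) *
      (c * (c + (1 - 2 * c) * (a + b - a * b * c)) + (1 - a * c) * (1 - b * c) *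
      (1 - 5 / 2 * (a + b) + 2 * (a ^ 2 + a * b + b ^ 2) -
        1 / 2 * (a ^ 3 + a ^ 2 * b + a * b ^ 2 + b ^ 3))) / ((1 - a * c) * (1 - b * c)) := by
    have e1 : (ev a + nn a c) - (ev b + nn b c) = (ev a - ev b) + (nn a c - nn b c) := by ring
    rw [e1, ev_sub, nn_sub h1.ne' h2.ne']
    field_simp
    ring
  have : 0 ≤ (a - b) *
      (c * (c + (1 - 2 * c) * (a + b - a * b * c)) + (1 - a * c) * (1 - b * c) *
      (1 - 5 / 2 * (a + b) + 2 * (a ^ 2 + a * b + b ^ 2) -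
        1 / 2 * (a ^ 3 + a ^ 2 * b + a * b ^ 2 + b ^ 3))) / ((1 - a * c) * (1 - b * c)) :=
    div_nonneg (mul_nonneg (sub_nonneg.2 hab) h) (mul_pos h1 h2).le
  linarith

/-- Lowering a vertex to `1/4`. -/
lemma lem_M1 {a c : ℝ} (ha : 1 / 4 ≤ a) (ha1 : a ≤ 1) (hc : 1 / 4 ≤ c) (hc1 : c ≤ 1)
    (h : a * c < 1) : ev (1 / 4) + nn (1 / 4) c ≤ ev a + nn a c := by
  apply comb_nonneg ha (by linarith) (by linarith)
  rcases le_or_gt a (5 / 8) with h5 | h5
  · exact bM1a (by linarith) (by linarith) (by linarith) (by linarith)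
  · exact bM1b (by linarith) (by linarith) (by linarith) (by linarith)

/-- Lowering a vertex to the level of a non-neighbour. -/
lemma lem_M {a c : ℝ} (hc : 1 / 4 ≤ c) (hca : c ≤ a) (ha1 : a ≤ 1) (h : a * c < 1) :
    ev c + nn c c ≤ ev a + nn a c := by
  have hc0 : 0 < c := by linarith
  have hc1 : c < 1 := by nlinarith
  have hcc : c * c ≤ a * c := mul_le_mul_of_nonneg_right hca hc0.le
  apply comb_nonneg hca (by linarith) (by linarith)
  set s : ℝ := (a - c) / (1 - c) with hs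
  have h1c : 0 < 1 - c := by linarith
  have has : a = c + s * (1 - c) := by rw [hs]; field_simp; ring
  have hs0 : 0 ≤ s := div_nonneg (by linarith) h1c.le
  have hs1 : s ≤ 1 := by rw [hs, div_le_one h1c]; linarith
  rw [has]
  rcases le_or_gt s (1 / 2) with h5 | h5
  · exact bMa hs0 (by linarith) (by linarith) (by linarith)
  · exact bMb (by linarith) (by linarith) (by linarith) (by linarith)

lemma lem_M0 {a b : ℝ} (hb0 : 0 ≤ b) (hb : b ≤ 1 / 4) (hba : b ≤ a) (ha1 : a ≤ 1) :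
    b / 2 ≤ ev a + nn a b := by
  set s : ℝ := (a - b) / (1 - b) with hs
  have h1b : 0 < 1 - b := by linarith
  have has : a = b + s * (1 - b) := by rw [hs]; field_simp; ring
  have hs0 : 0 ≤ s := div_nonneg (by linarith) h1b.le
  have hs1 : s ≤ 1 := by rw [hs, div_le_one h1b]; linarith
  have hab : 0 < 1 - a * b := by nlinarith
  have hbox := bM0 hs0 (by linarith : 0 ≤ 1 - s) hb0 (by linarith : 0 ≤ 1 / 4 - b)
  rw [← has] at hbox
  have e : ev a + nn a b - b / 2 = ((a * (1 - a) ^ 2 * (1 - a / 2) - b / 2) * (1 - a * b) +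
      a * b * (a + b - 2 * (a * b))) / (1 - a * b) := by
    unfold ev nn
    field_simp
    ring
  have := div_nonneg hbox hab.le
  linarith

lemma ev_quarter : 2 * ev (1 / 4) + nn (1 / 4) (1 / 4) = 347 / 1280 := by
  unfold ev nn
  norm_num

lemma nn_self {c : ℝ} (hc : c < 1) (hc0 : 0 ≤ c) : nn c c = 2 * c ^ 3 / (1 + c) := by
  unfold nn
  have h1 : 0 < 1 - c * c := by nlinarith
  have h2 : 0 < 1 + c := by linarith
  rw [div_eq_div_iff h1.ne' h2.ne']
  ring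

/-- Two non-adjacent vertices above `1/4`. -/
lemma pair_quarter {a b : ℝ} (ha : 1 / 4 ≤ a) (ha1 : a ≤ 1) (hb : 1 / 4 ≤ b) (hb1 : b ≤ 1)
    (h : a * b < 1) : 347 / 1280 ≤ ev a + ev b + nn a b := by
  have h1 := lem_M1 ha ha1 hb hb1 h
  have h2 := lem_M1 hb hb1 (le_refl (1 / 4 : ℝ)) (by norm_num) (by linarith)
  rw [nn_comm (1 / 4) b] at h1
  have h3 := ev_quarter
  linarith

end Pool.Agent.H39.Brouwer
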