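import Pool.Agent.H39.Brouwer.Cert
import Pool.Agent.H46.BrouwerTwo

/-!
# The projection inequality for graphs with an induced `2K₂`, `C₄` or `C₅`
-/

set_option autoImplicit false

namespace Pool.Agent.H39.Brouwer

open Finset Matrix Pool.Agent.H46.Brouwer

variable {V : Type*} [Fintype V] [DecidableEq V] {P : Matrix V V ℝ}

/-- The pair `(G, P)` is reduced: no edge has negative weight, no non-edge has positive weight. -/
def Reduced (G : SimpleGraph V) (P : Matrix V V ℝ) : Prop :=
  (∀ u v, G.Adj u v → 0 ≤ P u u + P v v + 2 * P u v - 1) ∧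
    (∀ u v, u ≠ v → ¬ G.Adj u v → P u u + P v v + 2 * P u v - 1 ≤ 0)

/-- The slack of a pair of vertices. -/
noncomputable def slk (G : SimpleGraph V) [DecidableRel G.Adj] (P : Matrix V V ℝ) (u v : V) : ℝ :=
  if G.Adj u v then (1 - P u u * P v v) * (P u v - (1 - P u u) * (1 - P v v)) ^ 2
    / ((1 - P u u) * (1 - P v v)) else nn (P u u) (P v v)

theorem edge_eq {p p' x : ℝ} (hq : p < 1) (hq' : p' < 1) :
    p + p' + 2 * x - 1 + (p * (1 - p) * (p' * (1 - p')) +
      (1 - p * p') * (x - (1 - p) * (1 - p')) ^ 2 / ((1 - p) * (1 - p'))) = p * p' +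
      2 * (p * p') * x + ((1 / (1 - p) - 1 / 2) + (1 / (1 - p') - 1 / 2)) * x ^ 2 := by
  have h1 : 1 - p ≠ 0 := by
    have : 0 < 1 - p := by linarith
    exact this.ne'
  have h2 : 1 - p' ≠ 0 := by
    have : 0 < 1 - p' := by linarith
    exact this.ne'
  field_simp
  ring

theorem non_le {p p' x : ℝ} (hp : 0 ≤ p) (hq : p < 1) (hq' : p' < 1) :
    p * (1 - p) * (p' * (1 - p')) + nn p p' ≤ p * p' + 2 * (p * p') * x
      + ((1 / (1 - p) - 1 / 2) + (1 / (1 - p') - 1 / 2)) * x ^ 2 := by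
  have h1 : 0 < 1 - p := by linarith
  have h2 : 0 < 1 - p' := by linarith
  have hb1 : p * p' < 1 := by nlinarith
  have hg : 0 < (1 - p) * (1 - p') := mul_pos h1 h2
  have h3 : 0 < 1 - p * p' := by linarith
  have e2 : p * p' + 2 * (p * p') * x + ((1 / (1 - p) - 1 / 2) + (1 / (1 - p') - 1 / 2)) * x ^ 2
      - (p * (1 - p) * (p' * (1 - p')) + nn p p')
      = ((1 - p * p') * x + (p * p') * ((1 - p) * (1 - p'))) ^ 2
          / ((1 - p * p') * ((1 - p) * (1 - p'))) := by
    unfold nn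
    field_simp
    ring
  have h4 : 0 ≤ ((1 - p * p') * x + (p * p') * ((1 - p) * (1 - p'))) ^ 2
          / ((1 - p * p') * ((1 - p) * (1 - p'))) := by positivity
  linarith

theorem slk_spec (hs : P.transpose = P) (hi : P * P = P) (G : SimpleGraph V)
    [DecidableRel G.Adj] {u v : V} (huv : v ≠ u) :
    (if G.Adj u v then (1 : ℝ) else 0) * (P u u + P v v + 2 * P u v - 1)
        + ((P u u * (1 - P u u)) * (P v v * (1 - P v v)) + slk G P u v)
      ≤ P u u * P v v + 2 * (P u u * P v v) * P u v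
      + ((1 / (1 - P u u) - 1 / 2) * P u v ^ 2 + (1 / (1 - P v v) - 1 / 2) * P u v ^ 2) := by
  have hp := diag_nonneg hs hi u
  have hp' := diag_nonneg hs hi v
  have hq := diag_le_one hs hi u
  have hq' := diag_le_one hs hi v
  have hsym : P v u = P u v := congrFun (congrFun hs u) v
  rcases eq_or_lt_of_le hq with h | h
  · have hz := off_zero hs hi huv h
    unfold slk
    rw [hz, h]
    by_cases hadj : G.Adj u v
    · simp [hadj]
    · simp only [hadj, if_false]
      unfold nn
      rcases eq_or_lt_of_le hq' with h' | h'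
      · rw [h']; norm_num
      · have : 0 < 1 - P v v := by linarith
        have e : 1 * P v v * (1 + P v v - 2 * (1 * P v v)) / (1 - 1 * P v v) = P v v := by
          rw [one_mul]
          field_simp
          ring
        rw [e]
        norm_num
  rcases eq_or_lt_of_le hq' with h' | h'
  · have hz : P u v = 0 := by rw [← hsym]; exact off_zero hs hi huv.symm h'
    unfold slk
    rw [hz, h']
    by_cases hadj : G.Adj u v
    · simp [hadj]
    · simp only [hadj, if_false]
      unfold nn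
      have : 0 < 1 - P u u := by linarith
      have e : P u u * 1 * (P u u + 1 - 2 * (P u u * 1)) / (1 - P u u * 1) = P u u := by
        rw [mul_one]
        field_simp
        ring
      rw [e]
      norm_num
  rw [← add_mul]
  unfold slk
  by_cases hadj : G.Adj u v
  · simp only [hadj, if_true, one_mul]
    exact (edge_eq h h').le
  · simp only [hadj, if_false, zero_mul, zero_add]
    exact non_le hp h h'

theorem slk_nonneg (hs : P.transpose = P) (hi : P * P = P) (G : SimpleGraph V)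
    [DecidableRel G.Adj] (u v : V) : 0 ≤ slk G P u v := by
  have hp := diag_nonneg hs hi u
  have hp' := diag_nonneg hs hi v
  have hq := diag_le_one hs hi u
  have hq' := diag_le_one hs hi v
  unfold slk
  split_ifs
  · have h1 : 0 ≤ 1 - P u u := by linarith
    have h2 : 0 ≤ 1 - P v v := by linarith
    have h3 : 0 ≤ 1 - P u u * P v v := by nlinarith
    positivity
  · exact nn_nonneg hp hq hp' hq'

omit [Fintype V] [DecidableEq V] in
theorem slk_symm (hs : P.transpose = P) (G : SimpleGraph V) [DecidableRel G.Adj] (u v : V) :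
    slk G P u v = slk G P v u := by
  have hsym : P v u = P u v := congrFun (congrFun hs u) v
  unfold slk
  rw [hsym, nn_comm (P v v) (P u u)]
  simp only [G.adj_comm u v]
  split_ifs
  · rw [mul_comm (P u u) (P v v), mul_comm (1 - P u u) (1 - P v v)]
  · rfl

/-- The projection inequality with the vertex terms and the slacks. -/
theorem core_full (hs : P.transpose = P) (hi : P * P = P) (G : SimpleGraph V)
    [DecidableRel G.Adj] :
    ∑ u, ∑ v, P u v * (G.degMatrix ℝ + G.adjMatrix ℝ) v u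
      ≤ (G.edgeFinset.card : ℝ) + (∑ u, P u u) * ((∑ u, P u u) + 1) / 2
        + (1 / 2 - ((∑ u, ev (P u u)) + (∑ u, ∑ v ∈ univ.erase u, slk G P u v) / 2)) := by
  set g : V → ℝ := fun u => P u u * (1 - P u u) with hg
  have h := core_slack hs hi G (fun u v => g u * g v + slk G P u v)
    (fun u v huv => slk_spec hs hi G huv)
  have h1 : ∑ u, ∑ v ∈ univ.erase u, (g u * g v + slk G P u v)
      = (∑ u, g u) ^ 2 - ∑ u, g u ^ 2 + ∑ u, ∑ v ∈ univ.erase u, slk G P u v := by
    rw [← sum_erase_mul g, ← Finset.sum_add_distrib]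
    exact Finset.sum_congr rfl fun u _ => Finset.sum_add_distrib
  have h2 : ∑ u, P u u ^ 2 * (1 - P u u) + (∑ u, g u ^ 2) / 2
      = ∑ u, g u - ∑ u, ev (P u u) := by
    rw [Finset.sum_div, ← Finset.sum_add_distrib, ← Finset.sum_sub_distrib]
    refine Finset.sum_congr rfl fun u _ => ?_
    simp only [hg]
    unfold ev
    ring
  rw [h1] at h
  nlinarith [sq_nonneg (∑ u, g u - 1)]

omit [DecidableEq V] in
/-- The Cauchy–Schwarz inequality for the entries. -/
theorem entry_sq_le (hs : P.transpose = P) (hi : P * P = P) (u v : V) :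
    P u v ^ 2 ≤ P u u * P v v := by
  have h : P u v = ∑ w, P u w * P v w := by
    have := congrFun (congrFun hi u) v
    rw [Matrix.mul_apply] at this
    rw [← this]
    refine Finset.sum_congr rfl fun w _ => ?_
    have : P w v = P v w := congrFun (congrFun hs v) w
    rw [this]
  rw [h]
  refine (Finset.sum_mul_sq_le_sq_mul_sq univ (fun w => P u w) (fun w => P v w)).trans (le_of_eq ?_)
  rw [row_sq hs hi u, row_sq hs hi v]

omit [DecidableEq V] in
theorem entry_le (hs : P.transpose = P) (hi : P * P = P) (u v : V) :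
    P u v ≤ √(P u u) * √(P v v) := by
  have hp := diag_nonneg hs hi u
  have h := entry_sq_le hs hi u v
  rw [← Real.sqrt_mul hp]
  exact Real.le_sqrt_of_sq_le h

theorem edge_sqrt (hs : P.transpose = P) (hi : P * P = P) {G : SimpleGraph V}
    (hr : Reduced G P) {u v : V} (h : G.Adj u v) : 1 ≤ √(P u u) + √(P v v) := by
  have h1 := hr.1 u v h
  have h2 := entry_le hs hi u v
  have e1 : √(P u u) ^ 2 = P u u := Real.sq_sqrt (diag_nonneg hs hi u)
  have e2 : √(P v v) ^ 2 = P v v := Real.sq_sqrt (diag_nonneg hs hi v)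
  have h3 : 0 ≤ √(P u u) + √(P v v) := by positivity
  have h4 : 1 ^ 2 ≤ (√(P u u) + √(P v v)) ^ 2 := by
    rw [add_sq, e1, e2]
    linarith
  exact (pow_le_pow_iff_left₀ zero_le_one h3 two_ne_zero).1 h4

theorem non_lt (hs : P.transpose = P) (hi : P * P = P) {G : SimpleGraph V}
    (hr : Reduced G P) {u v : V} (huv : u ≠ v) (h : ¬ G.Adj u v) : P u u * P v v < 1 := by
  have hp := diag_nonneg hs hi u
  have hp' := diag_nonneg hs hi v
  have hq := diag_le_one hs hi u
  have hq' := diag_le_one hs hi v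
  by_contra hc
  push Not at hc
  have h1 : P u u = 1 := by nlinarith
  have h2 : P v v = 1 := by nlinarith
  have h3 := hr.2 u v huv h
  rw [off_zero hs hi huv.symm h1, h1, h2] at h3
  linarith

theorem edge_X (hs : P.transpose = P) (hi : P * P = P) {G : SimpleGraph V} [DecidableRel G.Adj]
    (hr : Reduced G P) {u v : V} (h : G.Adj u v) : EdgeX (P u u) (P v v) (slk G P u v) := by
  refine ⟨slk_nonneg hs hi G u v, ?_⟩
  have hp := diag_nonneg hs hi u
  have hp' := diag_nonneg hs hi v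
  have hq := diag_le_one hs hi u
  have hq' := diag_le_one hs hi v
  have hx := entry_le hs hi u v
  have hsq := edge_sqrt hs hi hr h
  have h0 : 0 ≤ √(P u u) * √(P v v) := by positivity
  unfold slk
  simp only [h, if_true]
  rcases eq_or_lt_of_le hq with h1 | h1
  · rw [h1]
    simp only [sub_self, zero_mul, div_zero, Real.sqrt_one, one_mul]
    have := Real.sqrt_nonneg (P v v)
    linarith
  rcases eq_or_lt_of_le hq' with h2 | h2
  · rw [h2]
    simp only [sub_self, mul_zero, div_zero, Real.sqrt_one, mul_one]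
    have := Real.sqrt_nonneg (P u u)
    linarith
  set p := P u u with hpdef
  set p' := P v v with hpdef'
  set x := P u v with hxdef
  have g1 : 0 < 1 - p := by linarith
  have g2 : 0 < 1 - p' := by linarith
  have hk : 4 / 3 * ((1 - p) * (1 - p')) ≤ 1 - p * p' := by
    rcases le_total p' p with l | l
    · have := quarter_le l hsq
      nlinarith [mul_nonneg hp' g1.le, mul_nonneg g1.le g2.le,
        mul_nonneg (sub_nonneg.2 this) g2.le]
    · have := quarter_le l (by linarith : 1 ≤ √p' + √p)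
      nlinarith [mul_nonneg hp g2.le, mul_nonneg g1.le g2.le,
        mul_nonneg (sub_nonneg.2 this) g1.le]
  have hmain : 4 / 3 * (x - (1 - p) * (1 - p')) ^ 2 ≤
      (1 - p * p') * (x - (1 - p) * (1 - p')) ^ 2 / ((1 - p) * (1 - p')) := by
    rw [le_div_iff₀ (mul_pos g1 g2)]
    have := mul_le_mul_of_nonneg_right hk (sq_nonneg (x - (1 - p) * (1 - p')))
    linarith
  nlinarith [sq_nonneg ((1 - p) * (1 - p') - x - 3 / 20)]

omit [Fintype V] in
theorem sum_ge2 {s : Finset V} {F : V → ℝ} (hF : ∀ v, 0 ≤ F v) {a b : V} (ha : a ∈ s)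
    (hb : b ∈ s) (hab : a ≠ b) : F a + F b ≤ ∑ v ∈ s, F v := by
  have h : ({a, b} : Finset V) ⊆ s := by
    intro x hx
    simp only [mem_insert, mem_singleton] at hx
    rcases hx with rfl | rfl <;> assumption
  rw [← Finset.sum_pair hab]
  exact Finset.sum_le_sum_of_subset_of_nonneg h fun v _ _ => hF v

omit [Fintype V] in
theorem sum_ge3 {s : Finset V} {F : V → ℝ} (hF : ∀ v, 0 ≤ F v) {a b c : V} (ha : a ∈ s)
    (hb : b ∈ s) (hc : c ∈ s) (hab : a ≠ b) (hac : a ≠ c) (hbc : b ≠ c) :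
    F a + F b + F c ≤ ∑ v ∈ s, F v := by
  rw [← Finset.add_sum_erase s F ha]
  have := sum_ge2 hF (mem_erase.2 ⟨hab.symm, hb⟩) (mem_erase.2 ⟨hac.symm, hc⟩) hbc
  linarith

omit [Fintype V] in
theorem sum_ge4 {s : Finset V} {F : V → ℝ} (hF : ∀ v, 0 ≤ F v) {a b c d : V} (ha : a ∈ s)
    (hb : b ∈ s) (hc : c ∈ s) (hd : d ∈ s) (hab : a ≠ b) (hac : a ≠ c) (had : a ≠ d)
    (hbc : b ≠ c) (hbd : b ≠ d) (hcd : c ≠ d) : F a + F b + F c + F d ≤ ∑ v ∈ s, F v := by
  rw [← Finset.add_sum_erase s F ha]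
  have := sum_ge3 hF (mem_erase.2 ⟨hab.symm, hb⟩) (mem_erase.2 ⟨hac.symm, hc⟩)
    (mem_erase.2 ⟨had.symm, hd⟩) hbc hbd hcd
  linarith

omit [Fintype V] in
theorem sum_ge5 {s : Finset V} {F : V → ℝ} (hF : ∀ v, 0 ≤ F v) {a b c d e : V} (ha : a ∈ s)
    (hb : b ∈ s) (hc : c ∈ s) (hd : d ∈ s) (he : e ∈ s) (hab : a ≠ b) (hac : a ≠ c) (had : a ≠ d)
    (hae : a ≠ e) (hbc : b ≠ c) (hbd : b ≠ d) (hbe : b ≠ e) (hcd : c ≠ d) (hce : c ≠ e)
    (hde : d ≠ e) : F a + F b + F c + F d + F e ≤ ∑ v ∈ s, F v := by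
  rw [← Finset.add_sum_erase s F ha]
  have := sum_ge4 hF (mem_erase.2 ⟨hab.symm, hb⟩) (mem_erase.2 ⟨hac.symm, hc⟩)
    (mem_erase.2 ⟨had.symm, hd⟩) (mem_erase.2 ⟨hae.symm, he⟩) hbc hbd hbe hcd hce hde
  linarith

section main

variable (hs : P.transpose = P) (hi : P * P = P) (G : SimpleGraph V) [DecidableRel G.Adj]

include hs hi

theorem row_nonneg (u : V) : 0 ≤ ∑ v ∈ univ.erase u, slk G P u v :=
  Finset.sum_nonneg fun v _ => slk_nonneg hs hi G u v

theorem ev_diag_nonneg (u : V) : 0 ≤ ev (P u u) :=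
  ev_nonneg (diag_nonneg hs hi u) (diag_le_one hs hi u)

/-- The bound in the presence of an induced `2K₂` with edges `ab`, `cd`. -/
theorem bound_2k2 (hr : Reduced G P) {a b c d : V} (hab : G.Adj a b) (hcd : G.Adj c d)
    (nac : a ≠ c) (nad : a ≠ d) (nbc : b ≠ c) (nbd : b ≠ d) (hac : ¬ G.Adj a c)
    (had : ¬ G.Adj a d) (hbc : ¬ G.Adj b c) (hbd : ¬ G.Adj b d) :
    ∑ u, ∑ v, P u v * (G.degMatrix ℝ + G.adjMatrix ℝ) v u
      ≤ (G.edgeFinset.card : ℝ) + (∑ u, P u u) * ((∑ u, P u u) + 1) / 2 := by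
  have h := core_full hs hi G
  have nab := hab.ne
  have ncd := hcd.ne
  have e1 := sum_ge4 (s := univ) (F := fun u => ev (P u u)) (ev_diag_nonneg hs hi)
    (mem_univ a) (mem_univ b) (mem_univ c) (mem_univ d) nab nac nad nbc nbd ncd
  have e2 := sum_ge4 (s := univ) (F := fun u => ∑ v ∈ univ.erase u, slk G P u v)
    (row_nonneg hs hi G) (mem_univ a) (mem_univ b) (mem_univ c) (mem_univ d) nab nac nad nbc nbd
    ncd
  have r : ∀ u v w : V, v ≠ u → w ≠ u → v ≠ w →
      slk G P u v + slk G P u w ≤ ∑ x ∈ univ.erase u, slk G P u x := by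
    intro u v w h1 h2 h3
    exact sum_ge2 (F := fun x => slk G P u x) (fun x => slk_nonneg hs hi G u x)
      (mem_erase.2 ⟨h1, mem_univ v⟩) (mem_erase.2 ⟨h2, mem_univ w⟩) h3
  have ra := r a c d nac.symm nad.symm ncd
  have rb := r b c d nbc.symm nbd.symm ncd
  have rc := r c a b nac nbc nab
  have rd := r d a b nad nbd nab
  rw [slk_symm hs G c a, slk_symm hs G c b] at rc
  rw [slk_symm hs G d a, slk_symm hs G d b] at rd
  have sac : slk G P a c = nn (P a a) (P c c) := by simp [slk, hac]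
  have sad : slk G P a d = nn (P a a) (P d d) := by simp [slk, had]
  have sbc : slk G P b c = nn (P b b) (P c c) := by simp [slk, hbc]
  have sbd : slk G P b d = nn (P b b) (P d d) := by simp [slk, hbd]
  rw [sac, sad] at ra
  rw [sbc, sbd] at rb
  rw [sac, sbc] at rc
  rw [sad, sbd] at rd
  have hcert := cert_2k2 (diag_nonneg hs hi a) (diag_le_one hs hi a) (diag_nonneg hs hi b)
    (diag_le_one hs hi b) (diag_nonneg hs hi c) (diag_le_one hs hi c) (diag_nonneg hs hi d)
    (diag_le_one hs hi d) (edge_sqrt hs hi hr hab) (edge_sqrt hs hi hr hcd)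
    (non_lt hs hi hr nac hac) (non_lt hs hi hr nad had) (non_lt hs hi hr nbc hbc)
    (non_lt hs hi hr nbd hbd)
  linarith

/-- The bound in the presence of an induced `C₄` with non-edges `ab`, `cd`. -/
theorem bound_c4 (hr : Reduced G P) {a b c d : V} (nab : a ≠ b) (ncd : c ≠ d)
    (hab : ¬ G.Adj a b) (hcd : ¬ G.Adj c d) (hac : G.Adj a c) (had : G.Adj a d)
    (hbc : G.Adj b c) (hbd : G.Adj b d) :
    ∑ u, ∑ v, P u v * (G.degMatrix ℝ + G.adjMatrix ℝ) v u
      ≤ (G.edgeFinset.card : ℝ) + (∑ u, P u u) * ((∑ u, P u u) + 1) / 2 := by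
  have h := core_full hs hi G
  have nac := hac.ne
  have nad := had.ne
  have nbc := hbc.ne
  have nbd := hbd.ne
  have e1 := sum_ge4 (s := univ) (F := fun u => ev (P u u)) (ev_diag_nonneg hs hi)
    (mem_univ a) (mem_univ b) (mem_univ c) (mem_univ d) nab nac nad nbc nbd ncd
  have e2 := sum_ge4 (s := univ) (F := fun u => ∑ v ∈ univ.erase u, slk G P u v)
    (row_nonneg hs hi G) (mem_univ a) (mem_univ b) (mem_univ c) (mem_univ d) nab nac nad nbc nbd
    ncd
  have r : ∀ u v w z : V, v ≠ u → w ≠ u → z ≠ u → v ≠ w → v ≠ z → w ≠ z →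
      slk G P u v + slk G P u w + slk G P u z ≤ ∑ x ∈ univ.erase u, slk G P u x := by
    intro u v w z h1 h2 h3 h4 h5 h6
    exact sum_ge3 (F := fun x => slk G P u x) (fun x => slk_nonneg hs hi G u x)
      (mem_erase.2 ⟨h1, mem_univ v⟩) (mem_erase.2 ⟨h2, mem_univ w⟩)
      (mem_erase.2 ⟨h3, mem_univ z⟩) h4 h5 h6
  have ra := r a b c d nab.symm nac.symm nad.symm nbc nbd ncd
  have rb := r b a c d nab nbc.symm nbd.symm nac nad ncd
  have rc := r c a b d nac nbc ncd.symm nab nad nbd
  have rd := r d a b c nad nbd ncd nab nac nbc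
  rw [slk_symm hs G b a] at rb
  rw [slk_symm hs G c a, slk_symm hs G c b] at rc
  rw [slk_symm hs G d a, slk_symm hs G d b, slk_symm hs G d c] at rd
  have sab : slk G P a b = nn (P a a) (P b b) := by simp [slk, hab]
  have scd : slk G P c d = nn (P c c) (P d d) := by simp [slk, hcd]
  rw [sab] at ra rb
  rw [scd] at rc rd
  have hcert := cert_c4 (diag_nonneg hs hi a) (diag_le_one hs hi a) (diag_nonneg hs hi b)
    (diag_le_one hs hi b) (diag_nonneg hs hi c) (diag_le_one hs hi c) (diag_nonneg hs hi d)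
    (diag_le_one hs hi d) (edge_sqrt hs hi hr hac) (edge_sqrt hs hi hr had)
    (edge_sqrt hs hi hr hbc) (edge_sqrt hs hi hr hbd)
    (non_lt hs hi hr nab hab) (non_lt hs hi hr ncd hcd) (edge_X hs hi hr hac)
    (edge_X hs hi hr had) (edge_X hs hi hr hbc) (edge_X hs hi hr hbd)
  linarith

/-- The bound in the presence of an induced `C₅` with edges `ab, bc, cd, de, ea`. -/
theorem bound_c5 (hr : Reduced G P) {a b c d e : V} (hab : G.Adj a b) (hbc : G.Adj b c)
    (hcd : G.Adj c d) (hde : G.Adj d e) (hea : G.Adj e a) (nac : a ≠ c) (nad : a ≠ d)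
    (nbd : b ≠ d) (nbe : b ≠ e) (nce : c ≠ e) (hac : ¬ G.Adj a c) (had : ¬ G.Adj a d)
    (hbd : ¬ G.Adj b d) (hbe : ¬ G.Adj b e) (hce : ¬ G.Adj c e) :
    ∑ u, ∑ v, P u v * (G.degMatrix ℝ + G.adjMatrix ℝ) v u
      ≤ (G.edgeFinset.card : ℝ) + (∑ u, P u u) * ((∑ u, P u u) + 1) / 2 := by
  have h := core_full hs hi G
  have nab := hab.ne
  have nbc := hbc.ne
  have ncd := hcd.ne
  have nde := hde.ne
  have nea := hea.ne
  have e1 := sum_ge5 (s := univ) (F := fun u => ev (P u u)) (ev_diag_nonneg hs hi)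
    (mem_univ a) (mem_univ b) (mem_univ c) (mem_univ d) (mem_univ e) nab nac nad nea.symm nbc nbd
    nbe ncd nce nde
  have e2 := sum_ge5 (s := univ) (F := fun u => ∑ v ∈ univ.erase u, slk G P u v)
    (row_nonneg hs hi G) (mem_univ a) (mem_univ b) (mem_univ c) (mem_univ d) (mem_univ e) nab nac
    nad nea.symm nbc nbd nbe ncd nce nde
  have r : ∀ u v w : V, v ≠ u → w ≠ u → v ≠ w →
      slk G P u v + slk G P u w ≤ ∑ x ∈ univ.erase u, slk G P u x := by
    intro u v w h1 h2 h3
    exact sum_ge2 (F := fun x => slk G P u x) (fun x => slk_nonneg hs hi G u x)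
      (mem_erase.2 ⟨h1, mem_univ v⟩) (mem_erase.2 ⟨h2, mem_univ w⟩) h3
  have ra := r a c d nac.symm nad.symm ncd
  have rb := r b d e nbd.symm nbe.symm nde
  have rc := r c a e nac nce.symm nea.symm
  have rd := r d a b nad nbd nab
  have re := r e b c nbe nce nbc
  rw [slk_symm hs G c a] at rc
  rw [slk_symm hs G d a, slk_symm hs G d b] at rd
  rw [slk_symm hs G e b, slk_symm hs G e c] at re
  have sac : slk G P a c = nn (P a a) (P c c) := by simp [slk, hac]
  have sad : slk G P a d = nn (P a a) (P d d) := by simp [slk, had]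
  have sbd : slk G P b d = nn (P b b) (P d d) := by simp [slk, hbd]
  have sbe : slk G P b e = nn (P b b) (P e e) := by simp [slk, hbe]
  have sce : slk G P c e = nn (P c c) (P e e) := by simp [slk, hce]
  rw [sac, sad] at ra
  rw [sbd, sbe] at rb
  rw [sac, sce] at rc
  rw [sad, sbd] at rd
  rw [sbe, sce] at re
  have hcert := cert_c5 (diag_nonneg hs hi a) (diag_le_one hs hi a) (diag_nonneg hs hi b)
    (diag_le_one hs hi b) (diag_nonneg hs hi c) (diag_le_one hs hi c) (diag_nonneg hs hi d)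
    (diag_le_one hs hi d) (diag_nonneg hs hi e) (diag_le_one hs hi e)
    (edge_sqrt hs hi hr hab) (edge_sqrt hs hi hr hbc) (edge_sqrt hs hi hr hcd)
    (edge_sqrt hs hi hr hde) (edge_sqrt hs hi hr hea)
    (non_lt hs hi hr nac hac) (non_lt hs hi hr nad had) (non_lt hs hi hr nbd hbd)
    (non_lt hs hi hr nbe hbe) (non_lt hs hi hr nce hce)
  linarith

end main

end Pool.Agent.H39.Brouwer
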